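import Pool.Agent.Y933.CFN.Gauss
import Pool.Agent.H165R3.BPE

/-!
# The Gauss map is ergodic; generic points
-/

set_option autoImplicit false

open Set MeasureTheory Filter Topology Metric
open scoped ENNReal NNReal

namespace Pool.Agent.Y933.CFN

/-- the image of a set under `cf w` is not much smaller than the set -/
lemma volume_image_ge {w : List ℕ} (hw : Pos w) {E : Set ℝ} (hE : E ⊆ Icc (0 : ℝ) 1) :
    volume E ≤ ENNReal.ofReal (((q w : ℝ) + q' w) ^ 2) * volume (cf w '' E) := by
  have hq : (1 : ℝ) ≤ q w := by exact_mod_cast (q_pos hw).1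
  have hq' : (0 : ℝ) ≤ q' w := Nat.cast_nonneg _
  set K : ℝ≥0 := Real.toNNReal (((q w : ℝ) + q' w) ^ 2) with hK
  have hinj : InjOn (cf w) E := fun s hs t ht h => cf_inj hw (hE hs).1 (hE ht).1 h
  set g : ℝ → ℝ := Function.invFunOn (cf w) E with hg
  have hgl : ∀ s ∈ E, g (cf w s) = s := fun s hs => hinj.leftInvOn_invFunOn hs
  have hlip : LipschitzOnWith K g (cf w '' E) := by
    apply LipschitzOnWith.of_dist_le_mul
    rintro _ ⟨s, hs, rfl⟩ _ ⟨t, ht, rfl⟩
    rw [hgl s hs, hgl t ht, Real.dist_eq, Real.dist_eq, hK, Real.coe_toNNReal _ (by positivity)]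
    have h := cf_abs_sub_ge hw (hE hs) (hE ht)
    rw [div_le_iff₀ (by positivity)] at h
    linarith
  have h := hlip.hausdorffMeasure_image_le (d := 1) zero_le_one
  rw [hausdorffMeasure_real, ENNReal.rpow_one] at h
  have e : g '' (cf w '' E) = E := by
    rw [← image_comp]
    ext x
    constructor
    · rintro ⟨s, hs, rfl⟩
      simpa [hgl s hs] using hs
    · intro hx
      exact ⟨x, hx, hgl x hx⟩
  rw [e] at h
  exact h

lemma image_subset {w : List ℕ} (hw : Pos w) {s : ℝ} (hs : s ∈ Icc (0 : ℝ) 1) :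
    cf w s ∈ closedBall ((cf w 0 + cf w 1) / 2) (|cf w 0 - cf w 1| / 2) := by
  have hq : (1 : ℝ) ≤ q w := by exact_mod_cast (q_pos hw).1
  have hq' : (0 : ℝ) ≤ q' w := Nat.cast_nonneg _
  rw [mem_closedBall, Real.dist_eq]
  have e0 := cf_sub hw hs.1 (le_refl (0 : ℝ))
  have e1 := cf_sub hw (zero_le_one (α := ℝ)) hs.1
  have hs0 := hs.1
  have p1 : (0 : ℝ) < ((q w : ℝ) + s * q' w) * ((q w : ℝ) + 0 * q' w) := by positivity
  have p2 : (0 : ℝ) < ((q w : ℝ) + 1 * q' w) * ((q w : ℝ) + s * q' w) := by positivity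
  rcases Nat.even_or_odd w.length with he | ho
  · rw [he.neg_one_pow, one_mul] at e0 e1
    have s1 : 0 ≤ cf w s - cf w 0 := by rw [e0]; apply div_nonneg _ p1.le; linarith [hs.1]
    have s2 : 0 ≤ cf w 1 - cf w s := by rw [e1]; apply div_nonneg _ p2.le; linarith [hs.2]
    rw [abs_of_nonpos (by linarith : cf w 0 - cf w 1 ≤ 0), abs_le]
    constructor <;> linarith
  · rw [ho.neg_one_pow] at e0 e1
    have s1 : cf w s - cf w 0 ≤ 0 := by
      rw [e0]; apply div_nonpos_of_nonpos_of_nonneg _ p1.le; linarith [hs.1]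
    have s2 : cf w 1 - cf w s ≤ 0 := by
      rw [e1]; apply div_nonpos_of_nonpos_of_nonneg _ p2.le; linarith [hs.2]
    rw [abs_of_nonneg (by linarith : 0 ≤ cf w 0 - cf w 1), abs_le]
    constructor <;> linarith

lemma len_eq {w : List ℕ} (hw : Pos w) :
    |cf w 0 - cf w 1| = 1 / ((q w : ℝ) * (q w + q' w)) := by
  rw [cf_abs_sub hw le_rfl zero_le_one]
  norm_num

/-- invariant sets are trivial -/
lemma inv_trivial {B : Set ℝ} (hB : MeasurableSet B) (hinv : G ⁻¹' B = B) :
    volume (B ∩ Ioo (0 : ℝ) 1) = 0 ∨ volume (Bᶜ ∩ Ioo (0 : ℝ) 1) = 0 := by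
  by_contra hcon
  push Not at hcon
  obtain ⟨h1, h2⟩ := hcon
  set S : Set ℝ := B ∩ Ioo (0 : ℝ) 1 with hS
  set E : Set ℝ := Bᶜ ∩ Ioo (0 : ℝ) 1 with hE
  have hSm : MeasurableSet S := hB.inter measurableSet_Ioo
  have hd := IsUnifLocDoublingMeasure.ae_tendsto_measure_inter_div (volume : Measure ℝ) S 1
  have hirr : ∀ᵐ x ∂(volume : Measure ℝ), Irrational x := by
    have : (volume : Measure ℝ) {x | ¬ Irrational x} = 0 := by
      have hc : {x : ℝ | ¬ Irrational x}.Countable := by
        have : {x : ℝ | ¬ Irrational x} = range ((↑) : ℚ → ℝ) := by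
          ext x; simp [Irrational]
        rw [this]
        exact countable_range _
      exact hc.measure_zero _
    exact this
  rw [ae_restrict_iff' hSm] at hd
  obtain ⟨x, hx, hxS, hxirr⟩ : ∃ x, (x ∈ S → ∀ {ι : Type} {l : Filter ι} (w : ι → ℝ) (δ : ι → ℝ)
      (_ : Tendsto δ l (𝓝[>] 0)) (_ : ∀ᶠ j in l, x ∈ closedBall (w j) (1 * δ j)),
      Tendsto (fun j => volume (S ∩ closedBall (w j) (δ j)) / volume (closedBall (w j) (δ j)))
        l (𝓝 1)) ∧ x ∈ S ∧ Irrational x := by
    have h3 : ∃ᵐ x ∂(volume : Measure ℝ), x ∈ S := by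
      rw [frequently_ae_mem_iff]; exact h1
    obtain ⟨x, hxS, hx1, hx2⟩ := (h3.and_eventually (hd.and hirr)).exists
    exact ⟨x, fun h => hx1 h, hxS, hx2⟩
  have hx01 : x ∈ Ioo (0 : ℝ) 1 := hxS.2
  set c : ℕ → ℝ := fun n => (cf (dw x n) 0 + cf (dw x n) 1) / 2 with hc
  set δ : ℕ → ℝ := fun n => |cf (dw x n) 0 - cf (dw x n) 1| / 2 with hδ
  have hwp : ∀ n, Pos (dw x n) := dw_pos hxirr hx01
  have hδpos : ∀ n, 0 < δ n := by
    intro n
    simp only [hδ]
    rw [len_eq (hwp n)]
    have hq : (1 : ℝ) ≤ q (dw x n) := by exact_mod_cast (q_pos (hwp n)).1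
    positivity
  have hδlim : Tendsto δ atTop (𝓝[>] 0) := by
    rw [tendsto_nhdsWithin_iff]
    refine ⟨?_, Eventually.of_forall hδpos⟩
    have hu : ∀ n, δ n ≤ (1 / 2 : ℝ) ^ n := by
      intro n
      have := cf_contract (hwp n) (s := 0) (t := 1) (by simp) (by simp)
      rw [dw_length] at this
      simp only [hδ]
      linarith
    exact squeeze_zero (fun n => (hδpos n).le) hu
      (tendsto_pow_atTop_nhds_zero_of_lt_one (by norm_num) (by norm_num))
  have hmem : ∀ n, x ∈ closedBall (c n) (δ n) := by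
    intro n
    have h := image_subset (hwp n) (s := G^[n] x)
      ⟨(iter_mem hxirr hx01 n).1.le, (iter_mem hxirr hx01 n).2.le⟩
    rw [cf_dw hxirr hx01 n] at h
    exact h
  have hlim := hx hxS (l := (atTop : Filter ℕ)) c δ hδlim
    (Eventually.of_forall fun n => by rw [one_mul]; exact hmem n)
  -- upper bound for the ratio
  have hEfin : volume E ≤ 1 := by
    calc volume E ≤ volume (Ioo (0 : ℝ) 1) := measure_mono inter_subset_right
      _ = 1 := by simp
  set η : ℝ≥0∞ := volume E / 2 with hη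
  have hη0 : η ≠ 0 := by
    simp only [hη, ne_eq, ENNReal.div_eq_zero_iff, ENNReal.ofNat_ne_top, or_false]
    exact h2
  have hη1 : η ≤ 1 := by
    calc η ≤ volume E := ENNReal.half_le_self
      _ ≤ 1 := hEfin
  have hbound : ∀ n, volume (S ∩ closedBall (c n) (δ n)) / volume (closedBall (c n) (δ n)) ≤
      1 - η := by
    intro n
    set w := dw x n with hw
    set I := closedBall (c n) (δ n) with hI
    have hq : (1 : ℝ) ≤ q w := by exact_mod_cast (q_pos (hwp n)).1
    have hq' : (0 : ℝ) ≤ q' w := Nat.cast_nonneg _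
    have hqq : (q' w : ℝ) ≤ q w := by exact_mod_cast (q'_le (hwp n)).1
    have hvolI : volume I = ENNReal.ofReal (1 / ((q w : ℝ) * (q w + q' w))) := by
      rw [hI, Real.volume_closedBall, ← len_eq (hwp n)]
      congr 1
      simp only [hδ]
      ring
    have hsub : cf w '' E ⊆ I \ S := by
      rintro _ ⟨s, hs, rfl⟩
      have hs01 : s ∈ Ioo (0 : ℝ) 1 := hs.2
      refine ⟨image_subset (hwp n) ⟨hs01.1.le, hs01.2.le⟩, fun hB' => ?_⟩
      have hBn : ∀ (k : ℕ) (y : ℝ), y ∈ B → G^[k] y ∈ B := by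
        intro k
        induction k with
        | zero => intro y hy; exact hy
        | succ k ih =>
          intro y hy
          rw [Function.iterate_succ_apply]
          apply ih
          have : y ∈ G ⁻¹' B := by rw [hinv]; exact hy
          exact this
      have h5 := hBn w.length _ hB'.1
      rw [G_iter_length (hwp n) hs01] at h5
      exact hs.1 h5
    have h3 : volume E ≤ ENNReal.ofReal (((q w : ℝ) + q' w) ^ 2) * volume (I \ S) := by
      refine (volume_image_ge (hwp n) (fun y hy => ⟨hy.2.1.le, hy.2.2.le⟩)).trans ?_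
      gcongr
    have h4 : η * volume I ≤ volume (I \ S) := by
      have hfac : ENNReal.ofReal (((q w : ℝ) + q' w) ^ 2) * ENNReal.ofReal (1 / ((q w : ℝ) * (q w + q' w)))
          ≤ 2 := by
        rw [← ENNReal.ofReal_mul (by positivity), ← ENNReal.ofReal_ofNat]
        apply ENNReal.ofReal_le_ofReal
        rw [mul_one_div, div_le_iff₀ (by positivity)]
        nlinarith
      calc η * volume I ≤ (ENNReal.ofReal (((q w : ℝ) + q' w) ^ 2) * volume (I \ S)) / 2 * volume I := by
            gcongr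
            exact ENNReal.div_le_div_right h3 2
        _ = (ENNReal.ofReal (((q w : ℝ) + q' w) ^ 2) *
              ENNReal.ofReal (1 / ((q w : ℝ) * (q w + q' w)))) / 2 * volume (I \ S) := by
            rw [hvolI, ENNReal.div_eq_inv_mul, ENNReal.div_eq_inv_mul]
            ring
        _ ≤ 2 / 2 * volume (I \ S) := by gcongr
        _ = volume (I \ S) := by
            rw [ENNReal.div_self (by norm_num) (by norm_num), one_mul]
    have hI0 : volume I ≠ 0 := by
      rw [hvolI]
      simp only [ne_eq, ENNReal.ofReal_eq_zero, not_le]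
      positivity
    have hItop : volume I ≠ ⊤ := by rw [hvolI]; exact ENNReal.ofReal_ne_top
    rw [ENNReal.div_le_iff hI0 hItop, ENNReal.sub_mul (fun _ _ => hItop), one_mul]
    have h6 : volume I = volume (S ∩ I) + volume (I \ S) := by
      rw [inter_comm, measure_inter_add_diff I hSm]
    have h7 : volume (S ∩ I) + η * volume I ≤ volume I := by
      calc volume (S ∩ I) + η * volume I ≤ volume (S ∩ I) + volume (I \ S) := by gcongr
        _ = volume I := h6.symm
    exact ENNReal.le_sub_of_add_le_right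
      (ENNReal.mul_ne_top (ne_top_of_le_ne_top ENNReal.one_ne_top hη1) hItop) h7
  have hfin := le_of_tendsto' hlim hbound
  have : (1 : ℝ≥0∞) - η < 1 :=
    ENNReal.sub_lt_self ENNReal.one_ne_top one_ne_zero hη0
  exact absurd hfin (not_le.2 this)

theorem G_erg : Ergodic G gm := by
  refine ⟨G_mp, ⟨fun B hB hinv => ?_⟩⟩
  rw [eventuallyConst_set]
  have key : ∀ C : Set ℝ, volume (C ∩ Ioo (0 : ℝ) 1) = 0 → gm C = 0 := by
    intro C hC
    apply gm_ac'
    rw [Measure.restrict_apply' measurableSet_Ioc]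
    apply measure_mono_null (t := (C ∩ Ioo (0 : ℝ) 1) ∪ {1})
    · rintro x ⟨hx, hx1, hx2⟩
      rcases hx2.lt_or_eq with h | h
      · exact Or.inl ⟨hx, hx1, h⟩
      · exact Or.inr h
    · exact measure_union_null hC (by simp)
  rcases inv_trivial hB hinv with h | h
  · right
    rw [ae_iff]
    simp only [not_not]
    exact key B h
  · left
    have := key _ h
    rw [ae_iff]
    exact this

/-- generic points exist -/
theorem exists_generic : ∃ z : ℝ, Irrational z ∧ z ∈ Ioo (0 : ℝ) 1 ∧ ∀ t : ℚ,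
    Tendsto (fun n : ℕ => (((Finset.range n).filter (fun k => G^[k] z < (t : ℝ))).card : ℝ) / n)
      atTop (𝓝 (Fc t)) := by
  classical
  have hae : ∀ t : ℚ, ∀ᵐ x ∂gm, Tendsto (fun n : ℕ =>
      (((Finset.range n).filter (fun k => G^[k] x < (t : ℝ))).card : ℝ) / n) atTop (𝓝 (Fc t)) := by
    intro t
    set f : ℝ → ℝ := (Iio (t : ℝ)).indicator (fun _ => (1 : ℝ)) with hf
    have hfm : Measurable f := measurable_const.indicator measurableSet_Iio
    have hb : ∀ x, |f x| ≤ 1 := by
      intro x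
      simp only [hf, indicator]
      split_ifs <;> simp
    have hB := Pool.Agent.H165R3.BPE.birkhoff G_mp f hfm 1 hb
    have hcm : Measurable[MeasurableSpace.invariants G] (gm[f | MeasurableSpace.invariants G]) :=
      stronglyMeasurable_condExp.measurable
    have hcm' : Measurable (gm[f | MeasurableSpace.invariants G]) :=
      hcm.mono (MeasurableSpace.invariants_le G) le_rfl
    have hinv : (gm[f | MeasurableSpace.invariants G]) ∘ G = gm[f | MeasurableSpace.invariants G] :=
      MeasurableSpace.comp_eq_of_measurable_invariants hcm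
    obtain ⟨c, hc⟩ := G_erg.toPreErgodic.ae_eq_const_of_ae_eq_comp hcm' hinv
    have hfi : Integrable f gm := by
      refine Integrable.mono' (integrable_const 1) hfm.aestronglyMeasurable ?_
      filter_upwards with x
      exact hb x
    have hcval : c = Fc t := by
      have h1 := integral_condExp (μ := gm) (f := f) (MeasurableSpace.invariants_le G)
      rw [integral_congr_ae hc] at h1
      simp only [Function.const_apply, integral_const, probReal_univ, smul_eq_mul, one_mul] at h1
      rw [h1, hf, integral_indicator measurableSet_Iio, setIntegral_const, smul_eq_mul, mul_one]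
      unfold Measure.real
      rw [measure_congr (Iio_ae_eq_Iic (μ := gm) (a := (t : ℝ))), gm_Iic, ENNReal.toReal_ofReal]
      unfold Fc
      have h5 := F_mono le_rfl (le_max_left (0 : ℝ) (min 1 (t : ℝ)))
      rwa [F_zero] at h5
    filter_upwards [hB, hc] with x hx1 hx2
    rw [hx2, Function.const_apply, hcval] at hx1
    refine hx1.congr fun n => ?_
    rw [div_eq_inv_mul]
    congr 1
    rw [Finset.card_filter]
    push_cast
    apply Finset.sum_congr rfl
    intro k _
    simp only [hf, indicator, mem_Iio]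
  have hall : ∀ᵐ x ∂gm, ∀ t : ℚ, Tendsto (fun n : ℕ =>
      (((Finset.range n).filter (fun k => G^[k] x < (t : ℝ))).card : ℝ) / n) atTop (𝓝 (Fc t)) :=
    ae_all_iff.2 hae
  have hirr : ∀ᵐ x ∂gm, Irrational x := by
    have : (volume : Measure ℝ) {x | ¬ Irrational x} = 0 := by
      have hc : {x : ℝ | ¬ Irrational x}.Countable := by
        have : {x : ℝ | ¬ Irrational x} = range ((↑) : ℚ → ℝ) := by
          ext x; simp [Irrational]
        rw [this]
        exact countable_range _
      exact hc.measure_zero _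
    exact gm_ac this
  have h01 : ∀ᵐ x ∂gm, x ∈ Ioc (0 : ℝ) 1 := gm_compl
  obtain ⟨z, hz1, hz2, hz3⟩ := (hall.and (hirr.and h01)).exists
  refine ⟨z, hz2, ⟨hz3.1, lt_of_le_of_ne hz3.2 hz2.ne_one⟩, hz1⟩

end Pool.Agent.Y933.CFN
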