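import Pool.Agent.Y933.CFN.YSide
import Pool.Agent.Y933.CFN.Erg
import Pool.Agent.H313R3.BK.CF

/-!
# A continued fraction normal number `x` such that `c x + r` is not normal
-/

set_option autoImplicit false

open Set MeasureTheory Filter Topology

namespace Pool.Agent.Y933.CFN

/-- the digits of the infinite continued fraction -/
lemma inf_iter (a : ℕ → ℕ) (ha : ∀ i, 1 ≤ a i) (n : ℕ) :
    G^[n] (H313R3.BK.cf a) = H313R3.BK.cf (H313R3.BK.shn n a) := by
  induction n with
  | zero => rfl
  | succ n ih =>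
    have h1 : ∀ i, 1 ≤ H313R3.BK.shn n a i := fun i => ha (i + n)
    have h2 : ∀ i, 1 ≤ H313R3.BK.shn (n + 1) a i := fun i => ha (i + (n + 1))
    rw [Function.iterate_succ_apply', ih, H313R3.BK.cf_rec _ h1, H313R3.BK.sh_shn]
    exact G_cf ⟨(H313R3.BK.cf_pos _ h2).le, H313R3.BK.cf_lt_one _ h2⟩

lemma inf_dig (a : ℕ → ℕ) (ha : ∀ i, 1 ≤ a i) (n : ℕ) : dig (H313R3.BK.cf a) n = a n := by
  unfold dig
  have h1 : ∀ i, 1 ≤ H313R3.BK.shn n a i := fun i => ha (i + n)
  have h2 : ∀ i, 1 ≤ H313R3.BK.shn (n + 1) a i := fun i => ha (i + (n + 1))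
  rw [inf_iter a ha, H313R3.BK.cf_rec _ h1, H313R3.BK.sh_shn, one_div_one_div]
  have e : H313R3.BK.shn n a 0 = a n := by simp [H313R3.BK.shn]
  rw [e, Nat.floor_eq_iff (by have := H313R3.BK.cf_pos _ h2; positivity)]
  have := H313R3.BK.cf_pos _ h2
  have := H313R3.BK.cf_lt_one _ h2
  constructor <;> linarith

lemma dig_shift (x : ℝ) (i j : ℕ) : dig (G^[i] x) j = dig x (i + j) := by
  unfold dig
  rw [add_comm i j, Function.iterate_add_apply]

lemma dw_congr {x z : ℝ} {L : ℕ} (h : ∀ j < L, dig x j = dig z j) : dw x L = dw z L := by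
  induction L with
  | zero => rfl
  | succ L ih =>
    rw [dw, dw, ih (fun j hj => h j (by omega)), h L (by omega)]

/-- points with common digits are close -/
lemma compare {x z : ℝ} (hx : Irrational x) (hx1 : x ∈ Ioo (0 : ℝ) 1) (hz : Irrational z)
    (hz1 : z ∈ Ioo (0 : ℝ) 1) {i L : ℕ} (h : ∀ j < L, dig x (i + j) = dig z (i + j)) :
    |G^[i] x - G^[i] z| ≤ 2 * (1 / 2) ^ L := by
  have h1 := cf_dw (iter_irr hx i) (iter_mem hx hx1 i) L
  have h2 := cf_dw (iter_irr hz i) (iter_mem hz hz1 i) L
  have e : dw (G^[i] x) L = dw (G^[i] z) L :=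
    dw_congr fun j hj => by rw [dig_shift, dig_shift]; exact h j hj
  have hp := dw_pos (iter_irr hz i) (iter_mem hz hz1 i) L
  have m1 := iter_mem (iter_irr hx i) (iter_mem hx hx1 i) L
  have m2 := iter_mem (iter_irr hz i) (iter_mem hz hz1 i) L
  have h3 := cf_contract hp (s := G^[L] (G^[i] x)) (t := G^[L] (G^[i] z))
    ⟨m1.1.le, m1.2.le⟩ ⟨m2.1.le, m2.2.le⟩
  rw [dw_length] at h3
  rwa [← e, h1, e, h2] at h3

/-- there are few squares -/
lemma sq_count (N j : ℕ) :
    ((Finset.range N).filter (fun i => IsSquare (i + j))).card ≤ Nat.sqrt (N + j) + 1 := by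
  calc ((Finset.range N).filter (fun i => IsSquare (i + j))).card
      ≤ ((Finset.range (Nat.sqrt (N + j) + 1)).image (fun k => k * k - j)).card := by
        apply Finset.card_le_card
        intro i hi
        obtain ⟨hi1, k, hk⟩ := Finset.mem_filter.1 hi
        have hi1' := Finset.mem_range.1 hi1
        refine Finset.mem_image.2 ⟨k, Finset.mem_range.2 ?_, by omega⟩
        have : k ≤ Nat.sqrt (N + j) := by
          rw [Nat.le_sqrt]
          omega
        omega
    _ ≤ _ := Finset.card_image_le.trans (by rw [Finset.card_range])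

lemma sqrt_small (L : ℕ) : Tendsto (fun N : ℕ => (L * (Nat.sqrt (N + L) + 1 : ℕ) : ℝ) / N)
    atTop (𝓝 0) := by
  have h1 : Tendsto (fun N : ℕ => (L : ℝ) * (Real.sqrt (N + L) + 1) / N) atTop (𝓝 0) := by
    have e : ∀ᶠ N : ℕ in atTop, (L : ℝ) * (Real.sqrt ((N : ℝ) + L) + 1) / N ≤
        (L : ℝ) * ((L : ℝ) + 3) / Real.sqrt N := by
      filter_upwards [eventually_ge_atTop 1] with N hN
      have hN' : (1 : ℝ) ≤ N := by exact_mod_cast hN
      have hs : 1 ≤ Real.sqrt N := by
        rw [Real.one_le_sqrt]; exact hN'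
      have hss : Real.sqrt N * Real.sqrt N = N := Real.mul_self_sqrt (by linarith)
      have hL : (0 : ℝ) ≤ L := Nat.cast_nonneg L
      have h2 : Real.sqrt ((N : ℝ) + L) ≤ Real.sqrt N + L := by
        rw [Real.sqrt_le_left (by positivity)]
        nlinarith
      rw [div_le_div_iff₀ (by linarith) (by linarith)]
      calc (L : ℝ) * (Real.sqrt ((N : ℝ) + L) + 1) * Real.sqrt N
          ≤ (L : ℝ) * ((Real.sqrt N + L) + 1) * Real.sqrt N := by gcongr
        _ ≤ (L : ℝ) * ((L + 3) * Real.sqrt N) * Real.sqrt N := by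
            gcongr
            nlinarith
        _ = (L : ℝ) * (L + 3) * (Real.sqrt N * Real.sqrt N) := by ring
        _ = (L : ℝ) * (L + 3) * N := by rw [hss]
    have h0 : Tendsto (fun N : ℕ => (L : ℝ) * ((L : ℝ) + 3) / Real.sqrt N) atTop (𝓝 0) :=
      tendsto_const_nhds.div_atTop (Real.tendsto_sqrt_atTop.comp tendsto_natCast_atTop_atTop)
    exact squeeze_zero' (Eventually.of_forall fun N => by positivity) e h0
  refine squeeze_zero (fun N => by positivity) (fun N => ?_) h1
  have h3 : ((Nat.sqrt (N + L) : ℕ) : ℝ) ≤ Real.sqrt (N + L) := by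
    have := Real.nat_sqrt_le_real_sqrt (a := N + L)
    push_cast at this
    exact this
  push_cast
  gcongr

/-- the number of bad places -/
lemma bad_count (L N : ℕ) :
    ((Finset.range N).filter (fun i => ∃ j < L, IsSquare (i + j))).card ≤
      L * (Nat.sqrt (N + L) + 1) := by
  classical
  calc ((Finset.range N).filter (fun i => ∃ j < L, IsSquare (i + j))).card
      ≤ ((Finset.range L).biUnion (fun j => (Finset.range N).filter
          (fun i => IsSquare (i + j)))).card := by
        apply Finset.card_le_card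
        intro i hi
        obtain ⟨hi1, j, hj, hs⟩ := Finset.mem_filter.1 hi
        exact Finset.mem_biUnion.2 ⟨j, Finset.mem_range.2 hj, Finset.mem_filter.2 ⟨hi1, hs⟩⟩
    _ ≤ ∑ j ∈ Finset.range L, ((Finset.range N).filter (fun i => IsSquare (i + j))).card :=
        Finset.card_biUnion_le
    _ ≤ ∑ _j ∈ Finset.range L, (Nat.sqrt (N + L) + 1) := by
        apply Finset.sum_le_sum
        intro j hj
        have hj' := Finset.mem_range.1 hj
        refine (sq_count N j).trans ?_
        have := Nat.sqrt_le_sqrt (show N + j ≤ N + L by omega)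
        omega
    _ = _ := by simp

/-- changing the digits at the squares does not destroy normality -/
theorem transfer {x z : ℝ} (hx : Irrational x) (hx1 : x ∈ Ioo (0 : ℝ) 1) (hz : Irrational z)
    (hz1 : z ∈ Ioo (0 : ℝ) 1) (hd : ∀ j, ¬ IsSquare j → dig x j = dig z j)
    (hgen : ∀ t : ℚ, Tendsto (fun n : ℕ =>
      (((Finset.range n).filter (fun k => G^[k] z < (t : ℝ))).card : ℝ) / n) atTop (𝓝 (Fc t)))
    (t : ℝ) : Tendsto (fun n : ℕ =>
      (((Finset.range n).filter (fun k => G^[k] x < t)).card : ℝ) / n) atTop (𝓝 (Fc t)) := by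
  classical
  rw [Metric.tendsto_atTop']
  intro ε hε
  -- rational numbers near `t`
  have hcont := Fc_continuous.continuousAt (x := t)
  rw [Metric.continuousAt_iff] at hcont
  obtain ⟨δ, hδ, hδc⟩ := hcont (ε / 3) (by positivity)
  obtain ⟨t2, ht2a, ht2b⟩ := exists_rat_btwn (show t < t + δ by linarith)
  obtain ⟨t1, ht1a, ht1b⟩ := exists_rat_btwn (show t - δ < t by linarith)
  have hF2 : Fc t2 < Fc t + ε / 3 := by
    have := hδc (x := (t2 : ℝ)) (by rw [Real.dist_eq, abs_lt]; constructor <;> linarith)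
    rw [Real.dist_eq, abs_lt] at this
    linarith [this.2]
  have hF1 : Fc t - ε / 3 < Fc t1 := by
    have := hδc (x := (t1 : ℝ)) (by rw [Real.dist_eq, abs_lt]; constructor <;> linarith)
    rw [Real.dist_eq, abs_lt] at this
    linarith [this.1]
  obtain ⟨L, hL⟩ : ∃ L : ℕ, 2 * (1 / 2 : ℝ) ^ L < min (t2 - t) (t - t1) := by
    have hpos : 0 < min ((t2 : ℝ) - t) (t - t1) / 2 := by
      have : 0 < min ((t2 : ℝ) - t) (t - t1) := lt_min (by linarith) (by linarith)
      linarith
    obtain ⟨L, hL⟩ := exists_pow_lt_of_lt_one hpos (show (1 / 2 : ℝ) < 1 by norm_num)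
    exact ⟨L, by linarith⟩
  have hL2 : 2 * (1 / 2 : ℝ) ^ L < t2 - t := hL.trans_le (min_le_left _ _)
  have hL1 : 2 * (1 / 2 : ℝ) ^ L < t - t1 := hL.trans_le (min_le_right _ _)
  have hclose : ∀ i, (¬ ∃ j < L, IsSquare (i + j)) → |G^[i] x - G^[i] z| ≤ 2 * (1 / 2) ^ L := by
    intro i hi
    apply compare hx hx1 hz hz1
    intro j hj
    apply hd
    intro hs
    exact hi ⟨j, hj, hs⟩
  have hup : ∀ n, ((Finset.range n).filter (fun k => G^[k] x < t)).card ≤
      ((Finset.range n).filter (fun k => G^[k] z < (t2 : ℝ))).card + L * (Nat.sqrt (n + L) + 1) := by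
    intro n
    calc ((Finset.range n).filter (fun k => G^[k] x < t)).card
        ≤ (((Finset.range n).filter (fun k => G^[k] z < (t2 : ℝ))) ∪
            ((Finset.range n).filter (fun i => ∃ j < L, IsSquare (i + j)))).card := by
          apply Finset.card_le_card
          intro i hi
          obtain ⟨hi1, hi2⟩ := Finset.mem_filter.1 hi
          rw [Finset.mem_union, Finset.mem_filter, Finset.mem_filter]
          by_cases hb : ∃ j < L, IsSquare (i + j)
          · exact Or.inr ⟨hi1, hb⟩
          · left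
            refine ⟨hi1, ?_⟩
            have := abs_le.1 (hclose i hb)
            linarith
      _ ≤ _ := (Finset.card_union_le _ _).trans (by gcongr; exact bad_count L n)
  have hlo : ∀ n, ((Finset.range n).filter (fun k => G^[k] z < (t1 : ℝ))).card ≤
      ((Finset.range n).filter (fun k => G^[k] x < t)).card + L * (Nat.sqrt (n + L) + 1) := by
    intro n
    calc ((Finset.range n).filter (fun k => G^[k] z < (t1 : ℝ))).card
        ≤ (((Finset.range n).filter (fun k => G^[k] x < t)) ∪
            ((Finset.range n).filter (fun i => ∃ j < L, IsSquare (i + j)))).card := by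
          apply Finset.card_le_card
          intro i hi
          obtain ⟨hi1, hi2⟩ := Finset.mem_filter.1 hi
          rw [Finset.mem_union, Finset.mem_filter, Finset.mem_filter]
          by_cases hb : ∃ j < L, IsSquare (i + j)
          · exact Or.inr ⟨hi1, hb⟩
          · left
            refine ⟨hi1, ?_⟩
            have := abs_le.1 (hclose i hb)
            linarith
      _ ≤ _ := (Finset.card_union_le _ _).trans (by gcongr; exact bad_count L n)
  have g2 := (hgen t2).eventually (Iio_mem_nhds hF2)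
  have g1 := (hgen t1).eventually (Ioi_mem_nhds hF1)
  have g3 := (sqrt_small L).eventually (Iio_mem_nhds (show (0 : ℝ) < ε / 3 by positivity))
  obtain ⟨N, hN⟩ := eventually_atTop.1 (g1.and (g2.and (g3.and (eventually_ge_atTop 1))))
  refine ⟨N, fun n hn => ?_⟩
  obtain ⟨k1, k2, k3, k4⟩ := hN n hn.le
  have hn0 : (0 : ℝ) < n := by exact_mod_cast k4
  have k1' : Fc t - ε / 3 < (((Finset.range n).filter (fun k => G^[k] z < (t1 : ℝ))).card : ℝ) / n := k1
  have k2' : (((Finset.range n).filter (fun k => G^[k] z < (t2 : ℝ))).card : ℝ) / n < Fc t + ε / 3 := k2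
  have k3' : (L * (Nat.sqrt (n + L) + 1 : ℕ) : ℝ) / n < ε / 3 := k3
  have u1 : (((Finset.range n).filter (fun k => G^[k] x < t)).card : ℝ) / n ≤
      (((Finset.range n).filter (fun k => G^[k] z < (t2 : ℝ))).card : ℝ) / n +
        (L * (Nat.sqrt (n + L) + 1 : ℕ) : ℝ) / n := by
    rw [← add_div]
    gcongr
    exact_mod_cast hup n
  have u2 : (((Finset.range n).filter (fun k => G^[k] z < (t1 : ℝ))).card : ℝ) / n ≤
      (((Finset.range n).filter (fun k => G^[k] x < t)).card : ℝ) / n +
        (L * (Nat.sqrt (n + L) + 1 : ℕ) : ℝ) / n := by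
    rw [← add_div]
    gcongr
    exact_mod_cast hlo n
  rw [Real.dist_eq, abs_lt]
  constructor <;> linarith

open Classical in
/-- the next digit of `x` -/
noncomputable def nxt (c r : ℝ) (b : ℕ → ℕ) (w : List ℕ) : ℕ :=
  if IsSquare w.length then
    (if h : c ≠ 0 ∧ Pos w ∧ Irrational (c * cf w 0 + r) then
      (y_side c r h.1 w h.2.1 h.2.2 w.length).choose else 1)
  else b w.length

/-- the words -/
noncomputable def word (c r : ℝ) (b : ℕ → ℕ) : ℕ → List ℕ
  | 0 => []
  | n + 1 => word c r b n ++ [nxt c r b (word c r b n)]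

lemma word_length (c r : ℝ) (b : ℕ → ℕ) (n : ℕ) : (word c r b n).length = n := by
  induction n with
  | zero => rfl
  | succ n ih => simp [word, ih]

lemma nxt_pos (c r : ℝ) (b : ℕ → ℕ) (hb : ∀ i, 1 ≤ b i) (w : List ℕ) : 1 ≤ nxt c r b w := by
  unfold nxt
  split_ifs with h1 h2
  · exact (y_side c r h2.1 w h2.2.1 h2.2.2 w.length).choose_spec.1
  · exact le_rfl
  · exact hb _

theorem main (c r : ℝ) (hc : c ≠ 0)
    (hirr : ∀ w : List ℕ, w ≠ [] → Pos w → Irrational (c * cf w 0 + r)) :
    ∃ x : ℝ, Irrational x ∧ x ∈ Ioo (0 : ℝ) 1 ∧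
      (∀ t : ℝ, Tendsto (fun n : ℕ =>
        (((Finset.range n).filter (fun k => G^[k] x < t)).card : ℝ) / n) atTop (𝓝 (Fc t))) ∧
      ∀ M : ℕ, ∃ m, M ≤ m ∧ m ≤ ((Finset.range (4 * m + 1)).filter (fun i =>
        G^[i] (Int.fract (c * x + r)) ∈ Ico ((1 : ℝ) / 2) (2 / 3))).card := by
  classical
  obtain ⟨z, hz, hz1, hgen⟩ := exists_generic
  set b : ℕ → ℕ := dig z with hb
  have hbp : ∀ i, 1 ≤ b i := dig_pos hz hz1
  set a : ℕ → ℕ := fun n => nxt c r b (word c r b n) with ha
  have hap : ∀ i, 1 ≤ a i := fun i => nxt_pos c r b hbp _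
  set x : ℝ := H313R3.BK.cf a with hx
  have hxirr : Irrational x := H313R3.BK.irrational_cf a hap
  have hx1 : x ∈ Ioo (0 : ℝ) 1 := ⟨H313R3.BK.cf_pos a hap, H313R3.BK.cf_lt_one a hap⟩
  have hdig : ∀ n, dig x n = a n := inf_dig a hap
  have hword : ∀ n, dw x n = word c r b n := by
    intro n
    induction n with
    | zero => rfl
    | succ n ih => rw [dw, word, ih, hdig]
  refine ⟨x, hxirr, hx1, ?_, ?_⟩
  · apply transfer hxirr hx1 hz hz1 _ hgen
    intro j hj
    rw [hdig, ha]
    simp only [nxt, word_length]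
    rw [if_neg hj]
  · intro M
    set n : ℕ := (M + 1) * (M + 1) with hn
    have hpos : Pos (word c r b n) := by rw [← hword]; exact dw_pos hxirr hx1 n
    have hne : word c r b n ≠ [] := by
      intro h
      have := word_length c r b n
      rw [h] at this
      simp only [List.length_nil] at this
      nlinarith
    have hcond : c ≠ 0 ∧ Pos (word c r b n) ∧ Irrational (c * cf (word c r b n) 0 + r) :=
      ⟨hc, hpos, hirr _ hne hpos⟩
    have hsq : IsSquare (word c r b n).length := by rw [word_length]; exact ⟨M + 1, hn⟩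
    have han : a n = (y_side c r hcond.1 _ hcond.2.1 hcond.2.2 (word c r b n).length).choose := by
      simp only [ha, nxt]
      rw [if_pos hsq, dif_pos hcond]
    obtain ⟨-, m, hm, hprop⟩ :=
      (y_side c r hcond.1 _ hcond.2.1 hcond.2.2 (word c r b n).length).choose_spec
    rw [← han] at hprop
    rw [word_length] at hm
    refine ⟨m, by nlinarith, ?_⟩
    have hit := iter_mem hxirr hx1 (n + 1)
    have h := hprop (G^[n + 1] x) ⟨hit.1.le, hit.2.le⟩
    have e : cf (word c r b n ++ [a n]) (G^[n + 1] x) = x := by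
      have := cf_dw hxirr hx1 (n + 1)
      rw [dw, hword, hdig] at this
      exact this
    rw [e] at h
    exact h

end Pool.Agent.Y933.CFN
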