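import Mathlib

/-!
# Finite continued fractions as functions of the last tail

`cf [a₁, …, aₙ] s = 1 / (a₁ + 1 / (a₂ + ⋯ 1 / (aₙ + s)))`.
-/

set_option autoImplicit false

open Set

namespace Pool.Agent.Y933.CFN

/-- `cf [a₁, …, aₙ] s = 1 / (a₁ + 1 / (a₂ + ⋯ 1 / (aₙ + s)))` -/
noncomputable def cf : List ℕ → ℝ → ℝ
  | [], s => s
  | (a :: w), s => 1 / ((a : ℝ) + cf w s)

/-- the Gauss map -/
noncomputable def G (y : ℝ) : ℝ := Int.fract (1 / y)

/-- numerator pair -/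
def P : List ℕ → ℕ × ℕ × ℕ × ℕ
  | [] => (0, 1, 1, 0)
  | (a :: w) => ((P w).2.2.1, (P w).2.2.2, a * (P w).2.2.1 + (P w).1, a * (P w).2.2.2 + (P w).2.1)

/-- `p_n` -/
def p (w : List ℕ) : ℕ := (P w).1
/-- `p_{n-1}` -/
def p' (w : List ℕ) : ℕ := (P w).2.1
/-- `q_n` -/
def q (w : List ℕ) : ℕ := (P w).2.2.1
/-- `q_{n-1}` -/
def q' (w : List ℕ) : ℕ := (P w).2.2.2

@[simp] lemma p_nil : p [] = 0 := rfl
@[simp] lemma p'_nil : p' [] = 1 := rfl
@[simp] lemma q_nil : q [] = 1 := rfl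
@[simp] lemma q'_nil : q' [] = 0 := rfl
lemma p_cons (a : ℕ) (w : List ℕ) : p (a :: w) = q w := rfl
lemma p'_cons (a : ℕ) (w : List ℕ) : p' (a :: w) = q' w := rfl
lemma q_cons (a : ℕ) (w : List ℕ) : q (a :: w) = a * q w + p w := rfl
lemma q'_cons (a : ℕ) (w : List ℕ) : q' (a :: w) = a * q' w + p' w := rfl

/-- all entries are positive -/
def Pos (w : List ℕ) : Prop := ∀ a ∈ w, 1 ≤ a

lemma Pos.nil : Pos [] := by simp [Pos]
lemma Pos.cons {a : ℕ} {w : List ℕ} (h : Pos (a :: w)) : 1 ≤ a ∧ Pos w := by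
  simpa [Pos] using h
lemma Pos.append {v w : List ℕ} (hv : Pos v) (hw : Pos w) : Pos (v ++ w) := by
  intro a ha
  rcases List.mem_append.1 ha with h | h
  · exact hv a h
  · exact hw a h
lemma Pos.single {a : ℕ} (ha : 1 ≤ a) : Pos [a] := by simpa [Pos] using ha
lemma Pos.drop {w : List ℕ} (hw : Pos w) (i : ℕ) : Pos (w.drop i) :=
  fun a ha => hw a (List.mem_of_mem_drop ha)

lemma q_pos {w : List ℕ} (hw : Pos w) : 1 ≤ q w ∧ (w ≠ [] → 1 ≤ p w) := by
  induction w with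
  | nil => simp
  | cons a w ih =>
    obtain ⟨ha, hw'⟩ := hw.cons
    obtain ⟨h1, h2⟩ := ih hw'
    refine ⟨?_, fun _ => ?_⟩
    · rw [q_cons]; nlinarith
    · rw [p_cons]; exact h1

lemma q'_le {w : List ℕ} (hw : Pos w) : q' w ≤ q w ∧ (p' w ≤ p w ∨ w = []) := by
  induction w with
  | nil => simp
  | cons a w ih =>
    obtain ⟨ha, hw'⟩ := hw.cons
    obtain ⟨h1, h2⟩ := ih hw'
    refine ⟨?_, Or.inl ?_⟩
    · rw [q_cons, q'_cons]
      rcases h2 with h2 | h2
      · exact Nat.add_le_add (Nat.mul_le_mul le_rfl h1) h2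
      · subst h2; simpa using ha
    · rw [p_cons, p'_cons]; exact h1

lemma cf_mem {w : List ℕ} (hw : Pos w) {s : ℝ} (hs : s ∈ Icc (0 : ℝ) 1) :
    cf w s ∈ Icc (0 : ℝ) 1 := by
  induction w with
  | nil => exact hs
  | cons a w ih =>
    obtain ⟨ha, hw'⟩ := hw.cons
    have h := ih hw'
    have ha' : (1 : ℝ) ≤ a := by exact_mod_cast ha
    refine ⟨?_, ?_⟩
    · simp only [cf]
      have := h.1
      positivity
    · simp only [cf]
      rw [div_le_one (by linarith [h.1])]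
      linarith [h.1]

lemma cf_mem_Ioo {w : List ℕ} (hw : Pos w) {s : ℝ} (hs : s ∈ Ioo (0 : ℝ) 1) :
    cf w s ∈ Ioo (0 : ℝ) 1 := by
  induction w with
  | nil => exact hs
  | cons a w ih =>
    obtain ⟨ha, hw'⟩ := hw.cons
    have h := ih hw'
    have ha' : (1 : ℝ) ≤ a := by exact_mod_cast ha
    refine ⟨?_, ?_⟩
    · simp only [cf]
      have := h.1
      positivity
    · simp only [cf]
      rw [div_lt_one (by linarith [h.1])]
      linarith [h.1]

/-- the formula of the convergents -/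
lemma cf_eq {w : List ℕ} (hw : Pos w) {s : ℝ} (hs : 0 ≤ s) :
    cf w s = ((p w : ℝ) + s * p' w) / ((q w : ℝ) + s * q' w) := by
  induction w with
  | nil => simp [cf]
  | cons a w ih =>
    obtain ⟨ha, hw'⟩ := hw.cons
    have hq : (1 : ℝ) ≤ q w := by exact_mod_cast (q_pos hw').1
    have ha' : (1 : ℝ) ≤ a := by exact_mod_cast ha
    have hq' : (0 : ℝ) ≤ q' w := Nat.cast_nonneg _
    have hp : (0 : ℝ) ≤ p w := Nat.cast_nonneg _
    have hp' : (0 : ℝ) ≤ p' w := Nat.cast_nonneg _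
    simp only [cf]
    rw [ih hw', p_cons, p'_cons, q_cons, q'_cons]
    push_cast
    have h1 : (0 : ℝ) < (q w : ℝ) + s * q' w := by positivity
    have h2 : (0 : ℝ) < (a : ℝ) * q w + p w + s * (a * q' w + p' w) := by positivity
    have e : (a : ℝ) + ((p w : ℝ) + s * p' w) / ((q w : ℝ) + s * q' w) =
        ((a : ℝ) * q w + p w + s * (a * q' w + p' w)) / ((q w : ℝ) + s * q' w) := by
      rw [eq_div_iff h1.ne', add_mul, div_mul_cancel₀ _ h1.ne']
      ring
    rw [e, one_div_div]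

/-- the determinant -/
lemma det (w : List ℕ) : ((p' w : ℝ) * q w - p w * q' w) = (-1) ^ w.length := by
  induction w with
  | nil => simp
  | cons a w ih =>
    rw [p_cons, p'_cons, q_cons, q'_cons]
    push_cast
    rw [List.length_cons, pow_succ, ← ih]
    ring

/-- the difference formula -/
lemma cf_sub {w : List ℕ} (hw : Pos w) {s t : ℝ} (hs : 0 ≤ s) (ht : 0 ≤ t) :
    cf w s - cf w t = (-1) ^ w.length * (s - t) /
      (((q w : ℝ) + s * q' w) * ((q w : ℝ) + t * q' w)) := by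
  have hq : (1 : ℝ) ≤ q w := by exact_mod_cast (q_pos hw).1
  have hq' : (0 : ℝ) ≤ q' w := Nat.cast_nonneg _
  have h1 : (0 : ℝ) < (q w : ℝ) + s * q' w := by positivity
  have h2 : (0 : ℝ) < (q w : ℝ) + t * q' w := by positivity
  rw [cf_eq hw hs, cf_eq hw ht, ← det, div_sub_div _ _ h1.ne' h2.ne']
  congr 1
  ring

lemma cf_abs_sub {w : List ℕ} (hw : Pos w) {s t : ℝ} (hs : 0 ≤ s) (ht : 0 ≤ t) :
    |cf w s - cf w t| = |s - t| / (((q w : ℝ) + s * q' w) * ((q w : ℝ) + t * q' w)) := by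
  have hq : (1 : ℝ) ≤ q w := by exact_mod_cast (q_pos hw).1
  have hq' : (0 : ℝ) ≤ q' w := Nat.cast_nonneg _
  rw [cf_sub hw hs ht, abs_div, abs_mul, abs_pow, abs_neg, abs_one, one_pow, one_mul]
  congr 1
  exact abs_of_nonneg (by positivity)

lemma cf_abs_sub_le {w : List ℕ} (hw : Pos w) {s t : ℝ} (hs : 0 ≤ s) (ht : 0 ≤ t) :
    |cf w s - cf w t| ≤ |s - t| / (q w : ℝ) ^ 2 := by
  have hq : (1 : ℝ) ≤ q w := by exact_mod_cast (q_pos hw).1
  have hq' : (0 : ℝ) ≤ q' w := Nat.cast_nonneg _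
  rw [cf_abs_sub hw hs ht]
  apply div_le_div_of_nonneg_left (abs_nonneg _) (by positivity)
  have h1 : (q w : ℝ) ≤ q w + s * q' w := by nlinarith [mul_nonneg hs hq']
  have h2 : (q w : ℝ) ≤ q w + t * q' w := by nlinarith [mul_nonneg ht hq']
  rw [sq]
  exact mul_le_mul h1 h2 (by positivity) (by positivity)

lemma cf_abs_sub_ge {w : List ℕ} (hw : Pos w) {s t : ℝ} (hs : s ∈ Icc (0 : ℝ) 1)
    (ht : t ∈ Icc (0 : ℝ) 1) :
    |s - t| / ((q w : ℝ) + q' w) ^ 2 ≤ |cf w s - cf w t| := by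
  have hq : (1 : ℝ) ≤ q w := by exact_mod_cast (q_pos hw).1
  have hq' : (0 : ℝ) ≤ q' w := Nat.cast_nonneg _
  rw [cf_abs_sub hw hs.1 ht.1]
  have := hs.1
  have := ht.1
  apply div_le_div_of_nonneg_left (abs_nonneg _) (by positivity)
  have h1 : (q w : ℝ) + s * q' w ≤ q w + q' w := by nlinarith [hs.2]
  have h2 : (q w : ℝ) + t * q' w ≤ q w + q' w := by nlinarith [ht.2]
  rw [sq]
  exact mul_le_mul h1 h2 (by positivity) (by positivity)

lemma cf_append (v w : List ℕ) (s : ℝ) : cf (v ++ w) s = cf v (cf w s) := by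
  induction v with
  | nil => rfl
  | cons a v ih => simp [cf, ih]

lemma P_snoc (w : List ℕ) (a : ℕ) :
    p (w ++ [a]) = a * p w + p' w ∧ p' (w ++ [a]) = p w ∧
    q (w ++ [a]) = a * q w + q' w ∧ q' (w ++ [a]) = q w := by
  induction w with
  | nil => simp [p_cons, p'_cons, q_cons, q'_cons]
  | cons b w ih =>
    obtain ⟨h1, h2, h3, h4⟩ := ih
    rw [List.cons_append, p_cons, p'_cons, q_cons, q'_cons, p_cons, p'_cons, q_cons, q'_cons,
      h1, h2, h3, h4]
    refine ⟨rfl, rfl, ?_, rfl⟩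
    ring

lemma q_snoc (w : List ℕ) (a : ℕ) : q (w ++ [a]) = a * q w + q' w := (P_snoc w a).2.2.1
lemma q'_snoc (w : List ℕ) (a : ℕ) : q' (w ++ [a]) = q w := (P_snoc w a).2.2.2

/-- `q_n ≥ 2^{(n-1)/2}` -/
lemma q_growth {w : List ℕ} (hw : Pos w) :
    2 ^ w.length ≤ 2 * q w ^ 2 ∧ 2 ^ w.length ≤ q w * (q w + q' w) := by
  induction w using List.reverseRecOn with
  | nil => simp
  | append_singleton w a ih =>
    have hw' : Pos w := fun b hb => hw b (by simp [hb])
    have ha : 1 ≤ a := hw a (by simp)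
    obtain ⟨h1, h2⟩ := ih hw'
    rw [q_snoc, q'_snoc, List.length_append, List.length_singleton, pow_succ]
    have hq := (q_pos hw').1
    have e : q w + q' w ≤ a * q w + q' w := by nlinarith
    constructor
    · calc 2 ^ w.length * 2 ≤ (q w * (q w + q' w)) * 2 := by omega
        _ ≤ ((q w + q' w) * (q w + q' w)) * 2 := by gcongr; omega
        _ ≤ 2 * (a * q w + q' w) ^ 2 := by
          rw [sq]
          have := Nat.mul_le_mul e e
          omega
    · have h5 : (q w * (q w + q' w)) * 2 ≤ (q w + q' w) * (q w + q' w + q w) := by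
        nlinarith [Nat.zero_le (q' w * q' w), Nat.zero_le (q' w * q w)]
      have h6 : (q w + q' w) * (q w + q' w + q w) ≤ (a * q w + q' w) * (a * q w + q' w + q w) := by
        gcongr
      omega

lemma q_growth' {w : List ℕ} (hw : Pos w) : (1 : ℝ) / (q w : ℝ) ^ 2 ≤ 2 * (1 / 2) ^ w.length := by
  have h1 : (2 : ℝ) ^ w.length ≤ 2 * (q w : ℝ) ^ 2 := by exact_mod_cast (q_growth hw).1
  have hq : (1 : ℝ) ≤ q w := by exact_mod_cast (q_pos hw).1
  rw [div_le_iff₀ (by positivity), one_div, inv_pow]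
  have h2 : (0 : ℝ) < 2 ^ w.length := by positivity
  field_simp
  linarith

lemma cf_contract {w : List ℕ} (hw : Pos w) {s t : ℝ} (hs : s ∈ Icc (0 : ℝ) 1)
    (ht : t ∈ Icc (0 : ℝ) 1) : |cf w s - cf w t| ≤ 2 * (1 / 2) ^ w.length := by
  refine (cf_abs_sub_le hw hs.1 ht.1).trans (le_trans ?_ (q_growth' hw))
  have hq : (1 : ℝ) ≤ q w := by exact_mod_cast (q_pos hw).1
  apply div_le_div_of_nonneg_right _ (by positivity)
  rw [abs_le]
  constructor <;> linarith [hs.1, hs.2, ht.1, ht.2]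

lemma cf_inj {w : List ℕ} (hw : Pos w) {s t : ℝ} (hs : 0 ≤ s) (ht : 0 ≤ t)
    (h : cf w s = cf w t) : s = t := by
  have h1 := cf_abs_sub hw hs ht
  rw [h, sub_self, abs_zero] at h1
  have hq : (1 : ℝ) ≤ q w := by exact_mod_cast (q_pos hw).1
  have hq' : (0 : ℝ) ≤ q' w := Nat.cast_nonneg _
  have h2 : (0 : ℝ) < ((q w : ℝ) + s * q' w) * ((q w : ℝ) + t * q' w) := by positivity
  rw [eq_comm, div_eq_zero_iff] at h1
  rcases h1 with h1 | h1
  · linarith [abs_eq_zero.1 h1]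
  · exact absurd h1 h2.ne'

/-- the Gauss map removes the first letter -/
lemma G_cf {a : ℕ} {t : ℝ} (ht : t ∈ Ico (0 : ℝ) 1) : G (1 / ((a : ℝ) + t)) = t := by
  unfold G
  rw [one_div_one_div, Int.fract_natCast_add]
  exact Int.fract_eq_self.2 ht

lemma G_iter {w : List ℕ} (hw : Pos w) {s : ℝ} (hs : s ∈ Ioo (0 : ℝ) 1) {i : ℕ}
    (hi : i ≤ w.length) : G^[i] (cf w s) = cf (w.drop i) s := by
  induction i generalizing w with
  | zero => simp
  | succ i ih =>
    cases w with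
    | nil => simp at hi
    | cons a w =>
      obtain ⟨ha, hw'⟩ := hw.cons
      have h1 := cf_mem_Ioo hw' hs
      rw [Function.iterate_succ_apply]
      have e : G (cf (a :: w) s) = cf w s := by
        simp only [cf]
        exact G_cf ⟨h1.1.le, h1.2⟩
      rw [e, ih hw' (by simpa using hi)]
      simp

lemma G_iter_length {w : List ℕ} (hw : Pos w) {s : ℝ} (hs : s ∈ Ioo (0 : ℝ) 1) :
    G^[w.length] (cf w s) = s := by
  rw [G_iter hw hs le_rfl]
  simp [cf]

lemma G_iter_add {w : List ℕ} (hw : Pos w) {s : ℝ} (hs : s ∈ Ioo (0 : ℝ) 1) (j : ℕ) :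
    G^[w.length + j] (cf w s) = G^[j] s := by
  rw [add_comm, Function.iterate_add_apply, G_iter_length hw hs]

/-- the first digits -/
noncomputable def dig (x : ℝ) (i : ℕ) : ℕ := ⌊1 / G^[i] x⌋₊

/-- the word of the first `n` digits -/
noncomputable def dw (x : ℝ) : ℕ → List ℕ
  | 0 => []
  | n + 1 => dw x n ++ [dig x n]

lemma dw_length (x : ℝ) (n : ℕ) : (dw x n).length = n := by
  induction n with
  | zero => rfl
  | succ n ih => simp [dw, ih]

lemma G_irr {x : ℝ} (hx : Irrational x) : Irrational (G x) := by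
  unfold G
  rw [one_div]
  exact (Irrational.inv hx).sub_intCast _

lemma G_mem {x : ℝ} (hx : Irrational x) : G x ∈ Ioo (0 : ℝ) 1 := by
  refine ⟨lt_of_le_of_ne (Int.fract_nonneg _) ?_, Int.fract_lt_one _⟩
  have := (G_irr hx).ne_zero
  exact fun h => this h.symm

lemma iter_irr {x : ℝ} (hx : Irrational x) (n : ℕ) : Irrational (G^[n] x) := by
  induction n with
  | zero => exact hx
  | succ n ih =>
    rw [Function.iterate_succ_apply']
    exact G_irr ih

lemma iter_mem {x : ℝ} (hx : Irrational x) (hx1 : x ∈ Ioo (0 : ℝ) 1) (n : ℕ) :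
    G^[n] x ∈ Ioo (0 : ℝ) 1 := by
  cases n with
  | zero => exact hx1
  | succ n =>
    rw [Function.iterate_succ_apply']
    exact G_mem (iter_irr hx n)

lemma dig_pos {x : ℝ} (hx : Irrational x) (hx1 : x ∈ Ioo (0 : ℝ) 1) (n : ℕ) : 1 ≤ dig x n := by
  have h := iter_mem hx hx1 n
  unfold dig
  rw [Nat.le_floor_iff (by have := h.1; positivity), Nat.cast_one, le_div_iff₀ h.1]
  linarith [h.2]

lemma dig_spec {x : ℝ} (hx : Irrational x) (hx1 : x ∈ Ioo (0 : ℝ) 1) (n : ℕ) :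
    G^[n] x = 1 / ((dig x n : ℝ) + G^[n + 1] x) := by
  have h := iter_mem hx hx1 n
  rw [Function.iterate_succ_apply']
  unfold dig
  set y := G^[n] x with hy
  have h1 : (0 : ℝ) ≤ 1 / y := by have := h.1; positivity
  have h2 : ((⌊1 / y⌋₊ : ℕ) : ℝ) = ((⌊1 / y⌋ : ℤ) : ℝ) := by
    exact_mod_cast natCast_floor_eq_intCast_floor h1
  rw [h2]
  unfold G
  rw [Int.floor_add_fract, one_div_one_div]

lemma dw_pos {x : ℝ} (hx : Irrational x) (hx1 : x ∈ Ioo (0 : ℝ) 1) (n : ℕ) : Pos (dw x n) := by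
  induction n with
  | zero => exact Pos.nil
  | succ n ih => exact ih.append (Pos.single (dig_pos hx hx1 n))

lemma cf_dw {x : ℝ} (hx : Irrational x) (hx1 : x ∈ Ioo (0 : ℝ) 1) (n : ℕ) :
    cf (dw x n) (G^[n] x) = x := by
  induction n with
  | zero => rfl
  | succ n ih =>
    rw [dw, cf_append]
    simp only [cf]
    rw [← dig_spec hx hx1 n, ih]

end Pool.Agent.Y933.CFN
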