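import Pool.Agent.Y933.CFN.Basic

/-!
# The Gauss measure is invariant under the Gauss map
-/

set_option autoImplicit false

open Set MeasureTheory Filter Topology

namespace Pool.Agent.Y933.CFN

/-- the Gauss measure -/
noncomputable def gm : Measure ℝ :=
  (volume.restrict (Ioc (0 : ℝ) 1)).withDensity
    (fun x => ENNReal.ofReal (1 / ((1 + x) * Real.log 2)))

/-- the distribution function -/
noncomputable def F (t : ℝ) : ℝ := Real.log (1 + t) / Real.log 2

lemma log2_pos : 0 < Real.log 2 := Real.log_pos (by norm_num)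

lemma dens_meas : Measurable (fun x : ℝ => ENNReal.ofReal (1 / ((1 + x) * Real.log 2))) := by
  fun_prop

lemma gm_Icc {a b : ℝ} (ha : 0 ≤ a) (hab : a ≤ b) (hb : b ≤ 1) :
    gm (Icc a b) = ENNReal.ofReal (F b - F a) := by
  unfold gm
  rw [withDensity_apply _ measurableSet_Icc, Measure.restrict_restrict measurableSet_Icc]
  have h0 : (volume.restrict (Icc a b ∩ Ioc (0 : ℝ) 1) : Measure ℝ) = volume.restrict (Ioc a b) := by
    apply Measure.restrict_congr_set
    have h1 : (Icc a b : Set ℝ) =ᵐ[volume] Ioc a b := Ioc_ae_eq_Icc.symm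
    have h2 : (Ioc a b ∩ Ioc (0 : ℝ) 1 : Set ℝ) = Ioc a b := by
      apply inter_eq_left.2
      exact Ioc_subset_Ioc ha hb
    calc (Icc a b ∩ Ioc (0 : ℝ) 1 : Set ℝ) =ᵐ[volume] (Ioc a b ∩ Ioc (0 : ℝ) 1 : Set ℝ) :=
          h1.inter (ae_eq_refl _)
      _ = Ioc a b := h2
  rw [h0]
  have hint : IntervalIntegrable (fun x : ℝ => 1 / ((1 + x) * Real.log 2)) volume a b := by
    apply ContinuousOn.intervalIntegrable
    rw [uIcc_of_le hab]
    intro x hx
    have : (1 + x) * Real.log 2 ≠ 0 := by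
      have := log2_pos
      have : 0 < 1 + x := by linarith [hx.1]
      positivity
    apply ContinuousAt.continuousWithinAt
    fun_prop (disch := assumption)
  have hI : ∫ x in a..b, 1 / ((1 + x) * Real.log 2) = F b - F a := by
    apply intervalIntegral.integral_eq_sub_of_hasDerivAt _ hint
    intro x hx
    rw [uIcc_of_le hab] at hx
    have h1 : (1 + x) ≠ 0 := by linarith [hx.1]
    have h2 : HasDerivAt (fun y : ℝ => Real.log (1 + y)) (1 / (1 + x)) x :=
      ((hasDerivAt_id x).const_add 1).log h1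
    have h3 := h2.div_const (Real.log 2)
    rw [div_div] at h3
    exact h3
  rw [← hI, intervalIntegral.integral_of_le hab]
  rw [ofReal_integral_eq_lintegral_ofReal]
  · exact hint.1
  · rw [EventuallyLE, ae_restrict_iff' measurableSet_Ioc]
    filter_upwards with x hx
    have := log2_pos
    have : 0 < 1 + x := by linarith [hx.1]
    simp only [Pi.zero_apply]
    positivity

lemma F_zero : F 0 = 0 := by simp [F]
lemma F_one : F 1 = 1 := by
  unfold F
  rw [show (1 : ℝ) + 1 = 2 by norm_num]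
  exact div_self log2_pos.ne'

lemma F_mono {a b : ℝ} (ha : 0 ≤ a) (hab : a ≤ b) : F a ≤ F b := by
  unfold F
  apply div_le_div_of_nonneg_right _ log2_pos.le
  exact Real.log_le_log (by linarith) (by linarith)

lemma gm_compl : gm (Ioc (0 : ℝ) 1)ᶜ = 0 := by
  unfold gm
  have : (volume.restrict (Ioc (0 : ℝ) 1)) (Ioc (0 : ℝ) 1)ᶜ = 0 := by
    rw [Measure.restrict_apply measurableSet_Ioc.compl]
    simp
  exact withDensity_absolutelyContinuous _ _ this

lemma gm_ac : gm ≪ volume :=
  (withDensity_absolutelyContinuous _ _).trans Measure.absolutelyContinuous_restrict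

lemma gm_ac' : gm ≪ volume.restrict (Ioc (0 : ℝ) 1) := withDensity_absolutelyContinuous _ _

instance : NullSingletonClass gm := ⟨fun x => gm_ac (by simp)⟩

lemma gm_univ : gm univ = 1 := by
  have h1 : gm univ ≤ gm (Icc (0 : ℝ) 1) + gm (Ioc (0 : ℝ) 1)ᶜ := by
    refine le_trans (measure_mono ?_) (measure_union_le _ _)
    intro x _
    by_cases hx : x ∈ Ioc (0 : ℝ) 1
    · exact Or.inl ⟨hx.1.le, hx.2⟩
    · exact Or.inr hx
  rw [gm_compl, add_zero, gm_Icc le_rfl zero_le_one le_rfl, F_one, F_zero, sub_zero,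
    ENNReal.ofReal_one] at h1
  apply le_antisymm h1
  have h2 := measure_mono (μ := gm) (subset_univ (Icc (0 : ℝ) 1))
  rwa [gm_Icc le_rfl zero_le_one le_rfl, F_one, F_zero, sub_zero, ENNReal.ofReal_one] at h2

instance : IsProbabilityMeasure gm := ⟨gm_univ⟩

lemma gm_inter (S : Set ℝ) : gm (S ∩ Ioc (0 : ℝ) 1) = gm S := by
  apply le_antisymm (measure_mono inter_subset_left)
  calc gm S ≤ gm ((S ∩ Ioc (0 : ℝ) 1) ∪ (Ioc (0 : ℝ) 1)ᶜ) := by
        apply measure_mono
        intro x hx
        by_cases h : x ∈ Ioc (0 : ℝ) 1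
        · exact Or.inl ⟨hx, h⟩
        · exact Or.inr h
    _ ≤ gm (S ∩ Ioc (0 : ℝ) 1) + gm (Ioc (0 : ℝ) 1)ᶜ := measure_union_le _ _
    _ = _ := by rw [gm_compl, add_zero]

/-- the distribution function, extended -/
noncomputable def Fc (t : ℝ) : ℝ := F (max 0 (min 1 t))

lemma Fc_continuous : Continuous Fc := by
  unfold Fc F
  apply Continuous.div_const
  apply Continuous.log
  · fun_prop
  · intro x
    have : (0 : ℝ) ≤ max 0 (min 1 x) := le_max_left _ _
    linarith

lemma Fc_eq {t : ℝ} (h0 : 0 ≤ t) (h1 : t ≤ 1) : Fc t = F t := by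
  unfold Fc
  rw [min_eq_right h1, max_eq_right h0]

lemma gm_Iic (t : ℝ) : gm (Iic t) = ENNReal.ofReal (Fc t) := by
  have hm0 : (0 : ℝ) ≤ max 0 (min 1 t) := le_max_left _ _
  have hm1 : max 0 (min 1 t) ≤ (1 : ℝ) := max_le zero_le_one (min_le_left _ _)
  have h := gm_Icc le_rfl hm0 hm1
  rw [F_zero, sub_zero] at h
  rw [Fc, ← h, ← gm_inter, ← gm_inter (Icc _ _)]
  apply measure_congr
  apply ae_eq_set.2
  constructor
  · apply measure_mono_null (t := ({0} : Set ℝ))
    · rintro x ⟨⟨h1, h2⟩, h3⟩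
      exfalso
      apply h3
      have h1' : x ≤ t := h1
      refine ⟨⟨h2.1.le, ?_⟩, h2⟩
      exact le_max_of_le_right (le_min h2.2 h1')
    · exact measure_singleton _
  · apply measure_mono_null (t := ({0} : Set ℝ))
    · rintro x ⟨⟨h1, h2⟩, h3⟩
      by_contra hx0
      apply h3
      refine ⟨?_, h2⟩
      have h4 := h1.2
      have h5 : ¬ x ≤ 0 := by linarith [h2.1]
      rcases le_max_iff.1 h4 with h6 | h6
      · exact absurd h6 h5
      · exact h6.trans (min_le_right _ _)
    · exact measure_singleton _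

lemma G_meas : Measurable G := by
  unfold G
  exact (measurable_const.div measurable_id).fract

lemma G_nonneg (x : ℝ) : 0 ≤ G x := Int.fract_nonneg _
lemma G_lt_one (x : ℝ) : G x < 1 := Int.fract_lt_one _

lemma preim {t : ℝ} (h0 : 0 ≤ t) (h1 : t < 1) :
    G ⁻¹' (Iic t) ∩ Ioc (0 : ℝ) 1 =
      ⋃ d : ℕ, Icc (1 / ((d : ℝ) + 1 + t)) (1 / ((d : ℝ) + 1)) := by
  ext x
  simp only [mem_inter_iff, mem_preimage, mem_Iic, mem_Ioc, mem_iUnion, mem_Icc]
  constructor
  · rintro ⟨hG, hx0, hx1⟩
    have h1x : (1 : ℝ) ≤ 1 / x := by rw [le_div_iff₀ hx0]; linarith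
    have hfl : 1 ≤ ⌊1 / x⌋₊ := by rw [Nat.le_floor_iff (by positivity)]; push_cast; linarith
    obtain ⟨d, hd⟩ : ∃ d, ⌊1 / x⌋₊ = d + 1 := ⟨⌊1 / x⌋₊ - 1, by omega⟩
    refine ⟨d, ?_⟩
    have h2 : ((⌊1 / x⌋₊ : ℕ) : ℝ) = ((⌊1 / x⌋ : ℤ) : ℝ) := by
      exact_mod_cast natCast_floor_eq_intCast_floor (by positivity : (0 : ℝ) ≤ 1 / x)
    have h3 : 1 / x = (d : ℝ) + 1 + G x := by
      have : 1 / x = ((⌊1 / x⌋ : ℤ) : ℝ) + G x := by
        unfold G; rw [Int.floor_add_fract]
      rw [this, ← h2, hd]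
      push_cast
      ring
    have hx : x = 1 / ((d : ℝ) + 1 + G x) := by rw [← h3, one_div_one_div]
    have hGn := G_nonneg x
    constructor
    · rw [hx]
      apply one_div_le_one_div_of_le (by positivity)
      linarith
    · rw [hx]
      apply one_div_le_one_div_of_le (by positivity)
      linarith
  · rintro ⟨d, hd1, hd2⟩
    have hp : (0 : ℝ) < (d : ℝ) + 1 + t := by positivity
    have hx0 : 0 < x := lt_of_lt_of_le (by positivity) hd1
    have hx1 : x ≤ 1 := by
      refine hd2.trans ?_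
      rw [div_le_one (by positivity)]
      have : (0 : ℝ) ≤ d := Nat.cast_nonneg d
      linarith
    refine ⟨?_, hx0, hx1⟩
    have h2 : 1 / x ≤ (d : ℝ) + 1 + t := by
      rw [div_le_iff₀ hx0]
      rw [div_le_iff₀ hp] at hd1
      linarith
    have h3 : (d : ℝ) + 1 ≤ 1 / x := by
      rw [le_div_iff₀ hx0]
      rw [le_div_iff₀ (by positivity)] at hd2
      linarith
    have hfl : ⌊1 / x⌋ = (d : ℤ) + 1 := by
      rw [Int.floor_eq_iff]
      push_cast
      constructor <;> linarith
    unfold G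
    rw [Int.fract, hfl]
    push_cast
    linarith

lemma preim_disj {t : ℝ} (h0 : 0 ≤ t) (h1 : t < 1) :
    Pairwise (Function.onFun Disjoint
      (fun d : ℕ => Icc (1 / ((d : ℝ) + 1 + t)) (1 / ((d : ℝ) + 1)))) := by
  have key : ∀ a b : ℕ, a < b → Disjoint (Icc (1 / ((a : ℝ) + 1 + t)) (1 / ((a : ℝ) + 1)))
      (Icc (1 / ((b : ℝ) + 1 + t)) (1 / ((b : ℝ) + 1))) := by
    intro a b hab
    rw [Set.disjoint_left]
    rintro x ⟨hx1, _⟩ ⟨_, hx4⟩
    have hab' : (a : ℝ) + 1 ≤ b := by exact_mod_cast hab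
    have : 1 / ((b : ℝ) + 1) < 1 / ((a : ℝ) + 1 + t) := by
      apply one_div_lt_one_div_of_lt (by positivity)
      linarith
    linarith
  intro a b hab
  rcases lt_or_gt_of_ne hab with h | h
  · exact key a b h
  · exact (key b a h).symm

lemma tele {t : ℝ} (h0 : 0 ≤ t) (h1 : t < 1) :
    HasSum (fun d : ℕ => F (1 / ((d : ℝ) + 1)) - F (1 / ((d : ℝ) + 1 + t))) (F t) := by
  have hterm : ∀ d : ℕ, F (1 / ((d : ℝ) + 1)) - F (1 / ((d : ℝ) + 1 + t)) =
      (Real.log ((d + 1 : ℕ) + 1) - Real.log ((d + 1 : ℕ) + 1 + t)) / Real.log 2 -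
        (Real.log ((d : ℕ) + 1) - Real.log ((d : ℕ) + 1 + t)) / Real.log 2 := by
    intro d
    unfold F
    have hd : (0 : ℝ) ≤ d := Nat.cast_nonneg d
    have e1 : 1 + 1 / ((d : ℝ) + 1) = ((d : ℝ) + 1 + 1) / (d + 1) := by
      rw [add_div _ (1 : ℝ), div_self (by positivity)]
    have e2 : 1 + 1 / ((d : ℝ) + 1 + t) = ((d : ℝ) + 1 + 1 + t) / (d + 1 + t) := by
      rw [show (d : ℝ) + 1 + 1 + t = (d + 1 + t) + 1 by ring, add_div _ (1 : ℝ),
        div_self (by positivity)]
    rw [e1, e2, Real.log_div (by positivity) (by positivity), Real.log_div (by positivity)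
      (by positivity)]
    push_cast
    ring
  rw [hasSum_iff_tendsto_nat_of_nonneg]
  · have hs : ∀ n : ℕ, ∑ d ∈ Finset.range n, (F (1 / ((d : ℝ) + 1)) - F (1 / ((d : ℝ) + 1 + t))) =
        (Real.log ((n : ℕ) + 1) - Real.log ((n : ℕ) + 1 + t)) / Real.log 2 + F t := by
      intro n
      rw [Finset.sum_congr rfl (fun d _ => hterm d),
        Finset.sum_range_sub (fun d : ℕ =>
          (Real.log ((d : ℕ) + 1) - Real.log ((d : ℕ) + 1 + t)) / Real.log 2)]
      unfold F
      simp
      ring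
    have hlim : Tendsto (fun n : ℕ => (Real.log ((n : ℕ) + 1) - Real.log ((n : ℕ) + 1 + t)) /
        Real.log 2 + F t) atTop (𝓝 (-Real.log 1 / Real.log 2 + F t)) := by
      apply Tendsto.add_const
      apply Tendsto.div_const
      have e : ∀ n : ℕ, Real.log ((n : ℕ) + 1) - Real.log ((n : ℕ) + 1 + t) =
          - Real.log (1 + t / ((n : ℝ) + 1)) := by
        intro n
        have hn : (0 : ℝ) ≤ n := Nat.cast_nonneg n
        have e2 : 1 + t / ((n : ℝ) + 1) = ((n : ℝ) + 1 + t) / (n + 1) := by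
          rw [add_div, div_self (by positivity)]
        rw [e2, Real.log_div (by positivity) (by positivity)]
        ring
      simp_rw [e]
      apply Tendsto.neg
      have h2 : Tendsto (fun n : ℕ => 1 + t / ((n : ℝ) + 1)) atTop (𝓝 (1 + 0)) := by
        apply Tendsto.const_add
        exact tendsto_const_nhds.div_atTop
          (tendsto_atTop_add_const_right _ _ tendsto_natCast_atTop_atTop)
      rw [add_zero] at h2
      exact (Real.continuousAt_log one_ne_zero).tendsto.comp h2
    rw [Real.log_one, neg_zero, zero_div, zero_add] at hlim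
    exact hlim.congr fun n => (hs n).symm
  · intro d
    have hd : (0 : ℝ) ≤ d := Nat.cast_nonneg d
    rw [sub_nonneg]
    apply F_mono (by positivity)
    apply one_div_le_one_div_of_le (by positivity)
    linarith

lemma gm_preim (t : ℝ) : gm (G ⁻¹' (Iic t)) = gm (Iic t) := by
  rcases lt_or_ge t 0 with ht | ht
  · have h1 : G ⁻¹' (Iic t) = ∅ := by
      ext x
      simp only [mem_preimage, mem_Iic, mem_empty_iff_false, iff_false, not_le]
      exact ht.trans_le (G_nonneg x)
    rw [h1, measure_empty, gm_Iic, Fc, min_eq_right (by linarith), max_eq_left ht.le, F_zero]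
    simp
  rcases lt_or_ge t 1 with ht1 | ht1
  · rw [← gm_inter, preim ht ht1, measure_iUnion (preim_disj ht ht1)
      (fun d => measurableSet_Icc), gm_Iic, Fc_eq ht ht1.le]
    have hterm : ∀ d : ℕ, gm (Icc (1 / ((d : ℝ) + 1 + t)) (1 / ((d : ℝ) + 1))) =
        ENNReal.ofReal (F (1 / ((d : ℝ) + 1)) - F (1 / ((d : ℝ) + 1 + t))) := by
      intro d
      have hd : (0 : ℝ) ≤ d := Nat.cast_nonneg d
      apply gm_Icc (by positivity)
      · apply one_div_le_one_div_of_le (by positivity)
        linarith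
      · rw [div_le_one (by positivity)]
        linarith
    rw [tsum_congr hterm, ← ENNReal.ofReal_tsum_of_nonneg, (tele ht ht1).tsum_eq]
    · intro d
      have hd : (0 : ℝ) ≤ d := Nat.cast_nonneg d
      rw [sub_nonneg]
      apply F_mono (by positivity)
      apply one_div_le_one_div_of_le (by positivity)
      linarith
    · exact (tele ht ht1).summable
  · have h1 : G ⁻¹' (Iic t) = univ := by
      ext x
      simp only [mem_preimage, mem_Iic, mem_univ, iff_true]
      exact ((G_lt_one x).trans_le ht1).le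
    rw [h1, measure_univ, gm_Iic, Fc, min_eq_left ht1, max_eq_right zero_le_one, F_one]
    simp

theorem G_mp : MeasurePreserving G gm gm := by
  refine ⟨G_meas, ?_⟩
  have : IsProbabilityMeasure (Measure.map G gm) := Measure.isProbabilityMeasure_map G_meas.aemeasurable
  apply Measure.ext_of_Iic
  intro t
  rw [Measure.map_apply G_meas measurableSet_Iic]
  exact gm_preim t

end Pool.Agent.Y933.CFN
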