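import Pool.Agent.Y933.CFN.Basic

/-!
# Large partial quotients of `x` and the expansion of `c x + r`
-/

set_option autoImplicit false

open Set

namespace Pool.Agent.Y933.CFN

/-- `[0; 1, 1, 1, …]` -/
noncomputable def gold : ℝ := (Real.sqrt 5 - 1) / 2

lemma gold_bounds : (61 : ℝ) / 100 < gold ∧ gold < 62 / 100 := by
  unfold gold
  have h1 : (222 : ℝ) / 100 < Real.sqrt 5 := by
    apply Real.lt_sqrt_of_sq_lt; norm_num
  have h2 : Real.sqrt 5 < 224 / 100 := by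
    rw [Real.sqrt_lt' (by norm_num)]; norm_num
  constructor <;> linarith

lemma gold_eq : gold * (1 + gold) = 1 := by
  unfold gold
  have h : Real.sqrt 5 ^ 2 = 5 := Real.sq_sqrt (by norm_num)
  nlinarith

/-- points near the fixed point stay near it -/
lemma gold_run (m : ℕ) : ∀ ξ : ℝ, |ξ - gold| ≤ 1 / 25 * (1 / 4) ^ m → ∀ j ≤ m,
    G^[j] ξ ∈ Ico ((1 : ℝ) / 2) (2 / 3) := by
  have hg := gold_bounds
  have near : ∀ (k : ℕ) (ξ : ℝ), |ξ - gold| ≤ 1 / 25 * (1 / 4) ^ k → |ξ - gold| ≤ 1 / 25 := by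
    intro k ξ h
    refine h.trans ?_
    have : ((1 : ℝ) / 4) ^ k ≤ 1 := pow_le_one₀ (by norm_num) (by norm_num)
    linarith
  induction m with
  | zero =>
    intro ξ h j hj
    obtain rfl : j = 0 := by omega
    have h1 := abs_le.1 (near 0 ξ h)
    simp only [Function.iterate_zero, id_eq]
    constructor <;> linarith
  | succ m ih =>
    intro ξ h j hj
    have h1 := abs_le.1 (near (m + 1) ξ h)
    cases j with
    | zero =>
      simp only [Function.iterate_zero, id_eq]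
      constructor <;> linarith
    | succ j =>
      rw [Function.iterate_succ_apply]
      refine ih (G ξ) ?_ j (by omega)
      have hξ : (0 : ℝ) < ξ := by linarith
      have hg0 : 0 < gold := by linarith
      have hξ1 : (57 : ℝ) / 100 ≤ ξ := by linarith
      have hξ2 : ξ ≤ 66 / 100 := by linarith
      have e : G ξ = 1 / ξ - 1 := by
        unfold G
        have : ⌊1 / ξ⌋ = 1 := by
          rw [Int.floor_eq_iff]
          constructor
          · rw [le_div_iff₀ hξ]; push_cast; linarith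
          · rw [div_lt_iff₀ hξ]; push_cast; linarith
        rw [Int.fract, this]
        push_cast
        ring
      have e2 : G ξ - gold = (gold - ξ) / (ξ * gold) := by
        rw [e, eq_div_iff (by positivity)]
        field_simp
        nlinarith [gold_eq]
      rw [e2, abs_div, abs_sub_comm, div_le_iff₀ (by positivity), abs_of_pos (a := ξ * gold)
        (by positivity)]
      have h3 : (1 : ℝ) / 4 ≤ ξ * gold := by nlinarith
      have h4 : (0 : ℝ) ≤ 1 / 25 * (1 / 4) ^ m := by positivity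
      calc |ξ - gold| ≤ 1 / 25 * (1 / 4) ^ (m + 1) := h
        _ = (1 / 25 * (1 / 4) ^ m) * (1 / 4) := by ring
        _ ≤ (1 / 25 * (1 / 4) ^ m) * (ξ * gold) := by gcongr

lemma cf_continuousOn {w : List ℕ} (hw : Pos w) : ContinuousOn (cf w) (Ici (0 : ℝ)) := by
  have hq : (1 : ℝ) ≤ q w := by exact_mod_cast (q_pos hw).1
  have hq' : (0 : ℝ) ≤ q' w := Nat.cast_nonneg _
  have : ContinuousOn (fun s : ℝ => ((p w : ℝ) + s * p' w) / ((q w : ℝ) + s * q' w)) (Ici 0) := by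
    apply ContinuousOn.div
    · fun_prop
    · fun_prop
    · intro s hs
      have hs' : (0 : ℝ) ≤ s := hs
      positivity
  exact this.congr fun s hs => cf_eq hw hs

/-- every point close to `cf w g` is of the form `cf w ξ` with `ξ` close to `g` -/
lemma cf_surj {w : List ℕ} (hw : Pos w) {g ρ Y : ℝ} (hρ : 0 ≤ ρ) (h0 : 0 ≤ g - ρ) (h1 : g + ρ ≤ 1)
    (hY : |Y - cf w g| ≤ ρ / ((q w : ℝ) + q' w) ^ 2) : ∃ ξ, |ξ - g| ≤ ρ ∧ cf w ξ = Y := by
  have hq : (1 : ℝ) ≤ q w := by exact_mod_cast (q_pos hw).1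
  have hq' : (0 : ℝ) ≤ q' w := Nat.cast_nonneg _
  have hc : ContinuousOn (cf w) (uIcc (g - ρ) (g + ρ)) := by
    apply (cf_continuousOn hw).mono
    rw [uIcc_of_le (by linarith)]
    exact fun s hs => h0.trans hs.1
  have hsub := intermediate_value_uIcc hc
  have hg0 : 0 ≤ g := by linarith
  have e1 := cf_sub hw (s := g + ρ) (t := g) (by linarith) hg0
  have e2 := cf_sub hw (s := g - ρ) (t := g) (by linarith) hg0
  have a1 := cf_abs_sub_ge hw (s := g + ρ) (t := g) ⟨by linarith, by linarith⟩ ⟨hg0, by linarith⟩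
  have a2 := cf_abs_sub_ge hw (s := g - ρ) (t := g) ⟨by linarith, by linarith⟩ ⟨hg0, by linarith⟩
  rw [add_sub_cancel_left, abs_of_nonneg hρ] at a1
  rw [show g - ρ - g = -ρ by ring, abs_neg, abs_of_nonneg hρ] at a2
  have hY' := abs_le.1 hY
  have hmem : Y ∈ uIcc (cf w (g - ρ)) (cf w (g + ρ)) := by
    have p1 : (0 : ℝ) < ((q w : ℝ) + (g + ρ) * q' w) * ((q w : ℝ) + g * q' w) := by positivity
    have p2 : (0 : ℝ) < ((q w : ℝ) + (g - ρ) * q' w) * ((q w : ℝ) + g * q' w) := by positivity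
    rcases Nat.even_or_odd w.length with he | ho
    · rw [he.neg_one_pow, one_mul] at e1 e2
      have s1 : 0 ≤ cf w (g + ρ) - cf w g := by rw [e1]; apply div_nonneg _ p1.le; linarith
      have s2 : cf w (g - ρ) - cf w g ≤ 0 := by
        rw [e2]; apply div_nonpos_of_nonpos_of_nonneg _ p2.le; linarith
      rw [abs_of_nonneg s1] at a1
      rw [abs_of_nonpos s2] at a2
      rw [mem_uIcc]
      left
      constructor <;> linarith
    · rw [ho.neg_one_pow] at e1 e2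
      have s1 : cf w (g + ρ) - cf w g ≤ 0 := by
        rw [e1]; apply div_nonpos_of_nonpos_of_nonneg _ p1.le; linarith
      have s2 : 0 ≤ cf w (g - ρ) - cf w g := by
        rw [e2]; apply div_nonneg _ p2.le; linarith
      rw [abs_of_nonpos s1] at a1
      rw [abs_of_nonneg s2] at a2
      rw [mem_uIcc]
      right
      constructor <;> linarith
  obtain ⟨ξ, hξ, hξY⟩ := hsub hmem
  rw [uIcc_of_le (by linarith)] at hξ
  exact ⟨ξ, abs_le.2 ⟨by linarith [hξ.1], by linarith [hξ.2]⟩, hξY⟩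

/-- the target point near `y₀`: the estimates -/
lemma target {f0 : ℝ} (hf : Irrational f0) (hf1 : f0 ∈ Ioo (0 : ℝ) 1) (n : ℕ) :
    ∃ w : List ℕ, Pos w ∧ w.length = n + 1 ∧
      |cf w gold - f0| ≤ 16 / ((q w : ℝ) + q' w) ^ 2 ∧ 0 < (-1 : ℝ) ^ (n + 1) * (cf w gold - f0) := by
  have hg := gold_bounds
  set v := dw f0 n with hv
  have hvp : Pos v := dw_pos hf hf1 n
  have hvl : v.length = n := dw_length f0 n
  set K := dig f0 n + 1 with hK
  have hd := dig_pos hf hf1 n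
  have hK2 : 2 ≤ K := by omega
  have hKR : (2 : ℝ) ≤ K := by exact_mod_cast hK2
  have hKd : (K : ℝ) = dig f0 n + 1 := by rw [hK]; push_cast; ring
  set θ := G^[n] f0 with hθ
  set θ' := G^[n + 1] f0 with hθ'
  have hm := iter_mem hf hf1 n
  have hm' := iter_mem hf hf1 (n + 1)
  rw [← hθ] at hm
  rw [← hθ'] at hm'
  have hspec : θ = 1 / ((K : ℝ) - 1 + θ') := by
    rw [hθ, dig_spec hf hf1 n, hKd, hθ']
    congr 1
    ring
  have hcf : cf v θ = f0 := cf_dw hf hf1 n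
  have hwp : Pos (v ++ [K]) := hvp.append (Pos.single (by omega))
  have hq : (1 : ℝ) ≤ q v := by exact_mod_cast (q_pos hvp).1
  have hq' : (0 : ℝ) ≤ q' v := Nat.cast_nonneg _
  have hq'q : (q' v : ℝ) ≤ q v := by exact_mod_cast (q'_le hvp).1
  have hp1 : (0 : ℝ) < (K : ℝ) - 1 + θ' := by linarith [hm'.1]
  have hp2 : (0 : ℝ) < (K : ℝ) + gold := by linarith
  have hdiff : 1 / ((K : ℝ) + gold) - θ = -((1 + gold - θ') / (((K : ℝ) - 1 + θ') * (K + gold))) := by
    rw [hspec]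
    field_simp
    ring
  have hnum : 0 < 1 + gold - θ' := by linarith [hm'.2]
  have hpos : 0 < (1 + gold - θ') / (((K : ℝ) - 1 + θ') * (K + gold)) := by positivity
  refine ⟨v ++ [K], hwp, by simp [hvl], ?_, ?_⟩
  · have e : cf (v ++ [K]) gold = cf v (1 / ((K : ℝ) + gold)) := by rw [cf_append]; rfl
    rw [e, ← hcf]
    refine (cf_abs_sub_le hvp (by positivity) hm.1.le).trans ?_
    rw [hdiff, abs_neg, abs_of_pos hpos, q_snoc, q'_snoc]
    push_cast
    have h1 : (1 + gold - θ') / (((K : ℝ) - 1 + θ') * (K + gold)) ≤ 4 / (K : ℝ) ^ 2 := by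
      rw [div_le_div_iff₀ (by positivity) (by positivity)]
      have h2 : (K : ℝ) / 2 ≤ (K : ℝ) - 1 + θ' := by linarith [hm'.1]
      have h3 : (K : ℝ) ≤ K + gold := by linarith
      have h4 : (K : ℝ) / 2 * K ≤ ((K : ℝ) - 1 + θ') * (K + gold) :=
        mul_le_mul h2 h3 (by positivity) hp1.le
      have h5 : 1 + gold - θ' ≤ 2 := by linarith [hm'.1]
      nlinarith [mul_le_mul_of_nonneg_right h5 (by positivity : (0 : ℝ) ≤ (K : ℝ) ^ 2)]
    calc (1 + gold - θ') / (((K : ℝ) - 1 + θ') * (K + gold)) / (q v : ℝ) ^ 2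
        ≤ 4 / (K : ℝ) ^ 2 / (q v : ℝ) ^ 2 := by gcongr
      _ = 16 / (2 * (K : ℝ) * q v) ^ 2 := by
          field_simp
          norm_num
      _ ≤ 16 / ((K : ℝ) * q v + q' v + q v) ^ 2 := by
          gcongr
          nlinarith
  · have e : cf (v ++ [K]) gold = cf v (1 / ((K : ℝ) + gold)) := by rw [cf_append]; rfl
    rw [e, ← hcf, cf_sub hvp (by positivity) hm.1.le, hvl, hdiff, pow_succ]
    have h1 : (-1 : ℝ) ^ n * (-1 : ℝ) ^ n = 1 := by
      rw [← pow_add, ← two_mul, pow_mul]; norm_num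
    have h2 : (0 : ℝ) < ((q v : ℝ) + 1 / ((K : ℝ) + gold) * q' v) * ((q v : ℝ) + θ * q' v) := by
      have := hm.1
      positivity
    rw [show (-1 : ℝ) ^ n * -1 * ((-1) ^ n * -((1 + gold - θ') / (((K : ℝ) - 1 + θ') * (K + gold))) /
      (((q v : ℝ) + 1 / ((K : ℝ) + gold) * q' v) * ((q v : ℝ) + θ * q' v))) =
      ((-1 : ℝ) ^ n * (-1 : ℝ) ^ n) * ((1 + gold - θ') / (((K : ℝ) - 1 + θ') * (K + gold))) /
      (((q v : ℝ) + 1 / ((K : ℝ) + gold) * q' v) * ((q v : ℝ) + θ * q' v)) by ring, h1, one_mul]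
    exact div_pos hpos h2

/-- solving `c x(s) + r = y`: the partial quotient `A` -/
lemma solve {c : ℝ} (hc : c ≠ 0) {W : List ℕ} (hW : Pos W) {D : ℝ}
    (hD : 0 < D / (c * (-1) ^ W.length)) (hsmall : 4 * |D| * (q W : ℝ) ^ 2 ≤ |c|) :
    ∃ A : ℕ, 1 ≤ A ∧ ∀ β ∈ Icc (0 : ℝ) 1,
      |c * cf (W ++ [A]) β - c * cf W 0 - D| ≤ 8 * (q W : ℝ) ^ 2 * D ^ 2 / |c| := by
  have hq : (1 : ℝ) ≤ q W := by exact_mod_cast (q_pos hW).1
  have hq' : (0 : ℝ) ≤ q' W := Nat.cast_nonneg _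
  have hq'q : (q' W : ℝ) ≤ q W := by exact_mod_cast (q'_le hW).1
  have hca : 0 < |c| := abs_pos.2 hc
  set σ : ℝ := (-1) ^ W.length with hσ
  have hσ2 : σ * σ = 1 := by
    rw [hσ, ← pow_add, ← two_mul, pow_mul]; norm_num
  have hσ0 : σ ≠ 0 := by intro h; rw [h] at hσ2; norm_num at hσ2
  have hσa : |σ| = 1 := by rw [hσ, abs_pow, abs_neg, abs_one, one_pow]
  set u : ℝ := D / (c * σ) with hu
  have hua : u = |D| / |c| := by
    rw [← abs_of_pos hD, abs_div, abs_mul, hσa, mul_one]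
  have huD : D = u * (c * σ) := by rw [hu]; field_simp
  have hu4 : 4 * u * (q W : ℝ) ^ 2 ≤ 1 := by
    rw [hua, show 4 * (|D| / |c|) * (q W : ℝ) ^ 2 = (4 * |D| * (q W : ℝ) ^ 2) / |c| by ring,
      div_le_one hca]
    exact hsmall
  have hqq : (q W : ℝ) * q' W ≤ (q W : ℝ) ^ 2 := by nlinarith
  have hden : (1 : ℝ) / 2 ≤ 1 - u * (q W * q' W) := by
    nlinarith [mul_le_mul_of_nonneg_left hqq hD.le]
  have hden0 : 0 < 1 - u * (q W * q' W) := by linarith
  set s : ℝ := u * (q W : ℝ) ^ 2 / (1 - u * (q W * q' W)) with hs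
  have hs0 : 0 < s := by positivity
  have hs2 : s ≤ 2 * u * (q W : ℝ) ^ 2 := by
    rw [hs, div_le_iff₀ hden0]
    nlinarith [mul_le_mul_of_nonneg_left hden (by positivity : 0 ≤ 2 * u * (q W : ℝ) ^ 2)]
  have hs1 : s ≤ 1 / 2 := by linarith
  -- the value at `s`
  have hval : c * cf W s - c * cf W 0 = D := by
    rw [← mul_sub, cf_sub hW hs0.le le_rfl, ← hσ, zero_mul, add_zero, sub_zero]
    have hsm : s * (1 - u * (q W * q' W)) = u * (q W : ℝ) ^ 2 := by
      rw [hs]; exact div_mul_cancel₀ _ hden0.ne'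
    have hp : (0 : ℝ) < ((q W : ℝ) + s * q' W) * q W := by positivity
    have key : s = u * (((q W : ℝ) + s * q' W) * q W) := by nlinarith
    rw [mul_div_assoc']
    rw [div_eq_iff hp.ne', huD]
    calc c * (σ * s) = c * (σ * (u * (((q W : ℝ) + s * q' W) * q W))) := by rw [← key]
      _ = u * (c * σ) * (((q W : ℝ) + s * q' W) * q W) := by ring
  -- the partial quotient
  set A : ℕ := ⌊1 / s⌋₊ with hA
  have h1s : (2 : ℝ) ≤ 1 / s := by rw [le_div_iff₀ hs0]; linarith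
  have hA1 : 1 ≤ A := by
    rw [hA, Nat.le_floor_iff (by positivity)]; push_cast; linarith
  have hAR : (1 : ℝ) ≤ A := by exact_mod_cast hA1
  have hA2 : (A : ℝ) ≤ 1 / s := Nat.floor_le (by positivity)
  have hA3 : 1 / s < A + 1 := Nat.lt_floor_add_one _
  refine ⟨A, hA1, fun β hβ => ?_⟩
  have e : cf (W ++ [A]) β = cf W (1 / ((A : ℝ) + β)) := by rw [cf_append]; rfl
  have hAβ : (0 : ℝ) < A + β := by linarith [hβ.1]
  have hdist : |1 / ((A : ℝ) + β) - s| ≤ 2 * s ^ 2 := by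
    have e1 : 1 / ((A : ℝ) + β) - s = s * (1 / s - (A + β)) / (A + β) := by
      field_simp
    rw [e1, abs_div, abs_mul, abs_of_pos hs0, abs_of_pos hAβ, div_le_iff₀ hAβ]
    have h2 : |1 / s - ((A : ℝ) + β)| ≤ 1 := by
      rw [abs_le]
      constructor <;> linarith [hβ.1, hβ.2]
    have h3 : 1 ≤ 2 * s * (A + β) := by
      have h4 : 1 / s ≤ 2 * (A + β) := by linarith [hβ.1]
      have h5 : s * (1 / s) ≤ s * (2 * (A + β)) := by gcongr
      rw [mul_one_div, div_self hs0.ne'] at h5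
      linarith
    nlinarith
  have hfin : |c * cf (W ++ [A]) β - c * cf W 0 - D| ≤ |c| * (2 * s ^ 2 / (q W : ℝ) ^ 2) := by
    rw [show c * cf (W ++ [A]) β - c * cf W 0 - D = c * (cf W (1 / ((A : ℝ) + β)) - cf W s) by
      rw [e, ← hval]; ring, abs_mul]
    gcongr
    refine (cf_abs_sub_le hW (by positivity) hs0.le).trans ?_
    gcongr
  refine hfin.trans ?_
  have h6 : s ^ 2 ≤ (2 * u * (q W : ℝ) ^ 2) ^ 2 := by gcongr
  have h7 : u ^ 2 = D ^ 2 / |c| ^ 2 := by rw [hua, div_pow, sq_abs]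
  calc |c| * (2 * s ^ 2 / (q W : ℝ) ^ 2) ≤ |c| * (2 * (2 * u * (q W : ℝ) ^ 2) ^ 2 / (q W : ℝ) ^ 2) := by
        gcongr
    _ = |c| * (8 * (q W : ℝ) ^ 2 * u ^ 2) := by
        field_simp
        ring
    _ = 8 * (q W : ℝ) ^ 2 * D ^ 2 / |c| := by
        rw [h7]; field_simp

theorem y_side (c r : ℝ) (hc : c ≠ 0) (W : List ℕ) (hW : Pos W)
    (hirr : Irrational (c * cf W 0 + r)) (M : ℕ) :
    ∃ A : ℕ, 1 ≤ A ∧ ∃ m, M ≤ m ∧ ∀ β ∈ Icc (0 : ℝ) 1,
      m ≤ ((Finset.range (4 * m + 1)).filter (fun i =>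
        G^[i] (Int.fract (c * cf (W ++ [A]) β + r)) ∈ Ico ((1 : ℝ) / 2) (2 / 3))).card := by
  classical
  have hg := gold_bounds
  set y0 : ℝ := c * cf W 0 + r with hy0
  set f0 : ℝ := Int.fract y0 with hf0
  have hfirr : Irrational f0 := by
    rw [hf0, Int.fract]
    exact hirr.sub_intCast _
  have hf1 : f0 ∈ Ioo (0 : ℝ) 1 :=
    ⟨lt_of_le_of_ne (Int.fract_nonneg _) (fun h => hfirr.ne_zero h.symm), Int.fract_lt_one _⟩
  have hq : (1 : ℝ) ≤ q W := by exact_mod_cast (q_pos hW).1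
  have hca : 0 < |c| := abs_pos.2 hc
  -- a large `m` of the right parity
  obtain ⟨B, hB⟩ := pow_unbounded_of_one_lt
    (max (6400 * (8 * (q W : ℝ) ^ 2 / |c|)) (64 * (q W : ℝ) ^ 2 / |c|)) (one_lt_two (α := ℝ))
  obtain ⟨m, hmM, hmB, hpar⟩ : ∃ m : ℕ, M ≤ m ∧ B ≤ m ∧
      0 < (-1 : ℝ) ^ (3 * m + 1) / (c * (-1) ^ W.length) := by
    have hne : c * (-1) ^ W.length ≠ 0 := mul_ne_zero hc (pow_ne_zero _ (by norm_num))
    rcases lt_or_gt_of_ne hne with h | h
    · refine ⟨2 * (M + B), by omega, by omega, ?_⟩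
      have : (-1 : ℝ) ^ (3 * (2 * (M + B)) + 1) = -1 := by
        rw [pow_succ, show 3 * (2 * (M + B)) = 2 * (3 * (M + B)) by ring, pow_mul]
        norm_num
      rw [this]
      exact div_pos_of_neg_of_neg (by norm_num) h
    · refine ⟨2 * (M + B) + 1, by omega, by omega, ?_⟩
      have : (-1 : ℝ) ^ (3 * (2 * (M + B) + 1) + 1) = 1 := by
        rw [show 3 * (2 * (M + B) + 1) + 1 = 2 * (3 * (M + B) + 2) by ring, pow_mul]
        norm_num
      rw [this]
      exact div_pos one_pos h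
  have h2m : max (6400 * (8 * (q W : ℝ) ^ 2 / |c|)) (64 * (q W : ℝ) ^ 2 / |c|) ≤ 2 ^ m :=
    hB.le.trans (pow_le_pow_right₀ (by norm_num) hmB)
  have h2m1 := (le_max_left _ _).trans h2m
  have h2m2 := (le_max_right _ _).trans h2m
  obtain ⟨w, hwp, hwl, hw1, hw2⟩ := target hfirr hf1 (3 * m)
  set κ : ℝ := 1 / ((q w : ℝ) + q' w) ^ 2 with hκ
  have hqw : (1 : ℝ) ≤ q w := by exact_mod_cast (q_pos hwp).1
  have hqw' : (0 : ℝ) ≤ q' w := Nat.cast_nonneg _
  have hκ0 : 0 < κ := by positivity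
  have hκm : κ ≤ (1 / 2) ^ (3 * m) := by
    have h1 : κ ≤ 1 / (q w : ℝ) ^ 2 := by
      rw [hκ]
      gcongr
      linarith
    refine h1.trans ((q_growth' hwp).trans ?_)
    rw [hwl, pow_succ]
    linarith
  set D : ℝ := cf w gold - f0 with hD
  have hDa : |D| ≤ 16 * κ := by
    rw [hκ, mul_one_div]; exact hw1
  have hDpos : 0 < D / (c * (-1) ^ W.length) := by
    have hs2 : ((-1 : ℝ) ^ (3 * m + 1)) * ((-1 : ℝ) ^ (3 * m + 1)) = 1 := by
      rw [← pow_add, ← two_mul, pow_mul]; norm_num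
    have : D / (c * (-1) ^ W.length) = ((-1 : ℝ) ^ (3 * m + 1) * D) *
        ((-1 : ℝ) ^ (3 * m + 1) / (c * (-1) ^ W.length)) := by
      generalize (c * (-1) ^ W.length) = X
      generalize (-1 : ℝ) ^ (3 * m + 1) = Z at hs2 ⊢
      calc D / X = (Z * Z) * (D / X) := by rw [hs2, one_mul]
        _ = _ := by ring
    rw [this]
    exact mul_pos hw2 hpar
  have h8m : ((1 : ℝ) / 2) ^ (3 * m) = ((1 / 2) ^ m) ^ 3 := by rw [← pow_mul, mul_comm]
  have hhm : ((1 : ℝ) / 2) ^ m * 2 ^ m = 1 := by rw [← mul_pow]; norm_num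
  have hhm0 : (0 : ℝ) < (1 / 2) ^ m := by positivity
  have hhm1 : ((1 : ℝ) / 2) ^ m ≤ 1 := pow_le_one₀ (by norm_num) (by norm_num)
  have hsmall : 4 * |D| * (q W : ℝ) ^ 2 ≤ |c| := by
    rw [div_le_iff₀ hca] at h2m2
    have h1 : |D| ≤ 16 * (1 / 2) ^ m := by
      refine hDa.trans ?_
      have : κ ≤ (1 / 2) ^ m := by
        refine hκm.trans ?_
        rw [h8m]
        calc (((1 : ℝ) / 2) ^ m) ^ 3 ≤ (((1 : ℝ) / 2) ^ m) ^ 1 :=
              pow_le_pow_of_le_one hhm0.le hhm1 (by norm_num)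
          _ = _ := pow_one _
      linarith
    calc 4 * |D| * (q W : ℝ) ^ 2 ≤ 4 * (16 * (1 / 2) ^ m) * (q W : ℝ) ^ 2 := by gcongr
      _ = (1 / 2) ^ m * (64 * (q W : ℝ) ^ 2) := by ring
      _ ≤ (1 / 2) ^ m * (2 ^ m * |c|) := by gcongr
      _ = |c| := by rw [← mul_assoc, hhm, one_mul]
  obtain ⟨A, hA1, hA⟩ := solve hc hW hDpos hsmall
  refine ⟨A, hA1, m, hmM, fun β hβ => ?_⟩
  have hA' := hA β hβ
  set Y : ℝ := c * cf (W ++ [A]) β + r with hY
  -- `Y` is close to the target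
  have hclose : |Y - ⌊y0⌋ - cf w gold| ≤ (1 / 25 * (1 / 4) ^ m) / ((q w : ℝ) + q' w) ^ 2 := by
    have e : Y - ⌊y0⌋ - cf w gold = c * cf (W ++ [A]) β - c * cf W 0 - D := by
      rw [hD, hf0, Int.fract, hY, hy0]; ring
    rw [e]
    refine hA'.trans ?_
    rw [div_eq_mul_one_div (1 / 25 * (1 / 4) ^ m : ℝ), ← hκ]
    have h1 : D ^ 2 ≤ (16 * κ) ^ 2 := by
      rw [← sq_abs D]
      gcongr
    have h4m : ((1 : ℝ) / 4) ^ m = ((1 / 2) ^ m) ^ 2 := by
      rw [← pow_mul, mul_comm m 2, pow_mul]; norm_num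
    calc 8 * (q W : ℝ) ^ 2 * D ^ 2 / |c| = (8 * (q W : ℝ) ^ 2 / |c|) * D ^ 2 := by ring
      _ ≤ (8 * (q W : ℝ) ^ 2 / |c|) * (16 * κ) ^ 2 := by gcongr
      _ = (6400 * (8 * (q W : ℝ) ^ 2 / |c|)) * κ * κ * (1 / 25) := by ring
      _ ≤ 2 ^ m * (1 / 2) ^ (3 * m) * κ * (1 / 25) := by gcongr
      _ = ((1 / 2) ^ m * 2 ^ m) * ((1 / 2) ^ m) ^ 2 * κ * (1 / 25) := by rw [h8m]; ring
      _ = 1 / 25 * (1 / 4) ^ m * κ := by rw [hhm, h4m]; ring
  have h25 : (1 : ℝ) / 25 * (1 / 4) ^ m ≤ 1 / 25 := by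
    have : ((1 : ℝ) / 4) ^ m ≤ 1 := pow_le_one₀ (by norm_num) (by norm_num)
    linarith
  obtain ⟨ξ, hξ, hξY⟩ := cf_surj hwp (g := gold) (ρ := 1 / 25 * (1 / 4) ^ m) (by positivity)
    (by linarith) (by linarith) hclose
  have hξ' := abs_le.1 (hξ.trans h25)
  have hξ01 : ξ ∈ Ioo (0 : ℝ) 1 := ⟨by linarith, by linarith⟩
  have hfr : Int.fract Y = cf w ξ := by
    have e : Y = cf w ξ + (⌊y0⌋ : ℤ) := by rw [hξY]; ring
    have h1 := cf_mem_Ioo hwp hξ01
    rw [e, Int.fract_add_intCast]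
    exact Int.fract_eq_self.2 ⟨h1.1.le, h1.2⟩
  rw [hfr]
  have hrun := gold_run m ξ hξ
  calc m = ((Finset.range m).image (fun j => 3 * m + 1 + j)).card := by
        rw [Finset.card_image_of_injective _ (fun a b h => by simpa using h), Finset.card_range]
    _ ≤ _ := by
        apply Finset.card_le_card
        intro i hi
        obtain ⟨j, hj, rfl⟩ := Finset.mem_image.1 hi
        have hj' := Finset.mem_range.1 hj
        refine Finset.mem_filter.2 ⟨Finset.mem_range.2 (by omega), ?_⟩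
        have := G_iter_add hwp hξ01 j
        rw [hwl] at this
        rw [this]
        exact hrun j hj'.le

end Pool.Agent.Y933.CFN
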